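import Pool.Agent.C8.Ops
import Pool.Agent.C8.CB0
import Pool.Agent.C8.CB1

/-!
# The certificate CB (generated)
-/

set_option autoImplicit false

namespace Pool.Agent.C8.CB

open Pool.Agent.R4.M8 (pmII pmII_ok stt)

theorem d34 : Dead pmII [s34] := run_dead pmII_ok c34 dead_nil
theorem d33 : Dead pmII [s33] := run_dead pmII_ok c33 (dead_cons d34 dead_nil)
theorem d32 : Dead pmII [s32] := run_dead pmII_ok c32 dead_nil
theorem d31 : Dead pmII [s31] := run_dead pmII_ok c31 (dead_cons d32 dead_nil)
theorem d30 : Dead pmII [s30] := run_dead pmII_ok c30 (dead_cons d31 dead_nil)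
theorem d29 : Dead pmII [s29] := run_dead pmII_ok c29 dead_nil
theorem d28 : Dead pmII [s28] := run_dead pmII_ok c28 dead_nil
theorem d27 : Dead pmII [s27] := run_dead pmII_ok c27 dead_nil
theorem d26 : Dead pmII [s26] := run_dead pmII_ok c26 dead_nil
theorem d25 : Dead pmII [s25] := run_dead pmII_ok c25 (dead_cons d26 (dead_cons d27 (dead_cons d28 dead_nil)))
theorem d24 : Dead pmII [s24] := run_dead pmII_ok c24 dead_nil
theorem d23 : Dead pmII [s23] := run_dead pmII_ok c23 dead_nil
theorem d22 : Dead pmII [s22] := run_dead pmII_ok c22 dead_nil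
theorem d21 : Dead pmII [s21] := run_dead pmII_ok c21 dead_nil
theorem d20 : Dead pmII [s20] := run_dead pmII_ok c20 dead_nil
theorem d19 : Dead pmII [s19] := run_dead pmII_ok c19 dead_nil
theorem d18 : Dead pmII [s18] := run_dead pmII_ok c18 (dead_cons d19 (dead_cons d20 (dead_cons d21 (dead_cons d22 (dead_cons d23 dead_nil)))))
theorem d17 : Dead pmII [s17] := run_dead pmII_ok c17 (dead_cons d18 (dead_cons d24 (dead_cons d25 (dead_cons d29 dead_nil))))
theorem d16 : Dead pmII [s16] := run_dead pmII_ok c16 dead_nil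
theorem d15 : Dead pmII [s15] := run_dead pmII_ok c15 dead_nil
theorem d14 : Dead pmII [s14] := run_dead pmII_ok c14 (dead_cons d15 dead_nil)
theorem d13 : Dead pmII [s13] := run_dead pmII_ok c13 (dead_cons d14 dead_nil)
theorem d12 : Dead pmII [s12] := run_dead pmII_ok c12 dead_nil
theorem d11 : Dead pmII [s11] := run_dead pmII_ok c11 dead_nil
theorem d10 : Dead pmII [s10] := run_dead pmII_ok c10 dead_nil
theorem d9 : Dead pmII [s9] := run_dead pmII_ok c9 dead_nil
theorem d8 : Dead pmII [s8] := run_dead pmII_ok c8 dead_nil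
theorem d7 : Dead pmII [s7] := run_dead pmII_ok c7 (dead_cons d8 (dead_cons d9 (dead_cons d10 (dead_cons d11 dead_nil))))
theorem d6 : Dead pmII [s6] := run_dead pmII_ok c6 (dead_cons d7 (dead_cons d12 (dead_cons d13 (dead_cons d16 dead_nil))))
theorem d5 : Dead pmII [s5] := run_dead pmII_ok c5 dead_nil
theorem d4 : Dead pmII [s4] := run_dead pmII_ok c4 dead_nil
theorem d3 : Dead pmII [s3] := run_dead pmII_ok c3 dead_nil
theorem d2 : Dead pmII [s2] := run_dead pmII_ok c2 dead_nil
theorem d1 : Dead pmII [s1] := run_dead pmII_ok c1 (dead_cons d2 (dead_cons d3 (dead_cons d4 (dead_cons d5 (dead_cons d6 (dead_cons d17 (dead_cons d30 (dead_cons d33 dead_nil))))))))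
theorem d0 : Dead pmII [s0] := run_dead pmII_ok c0 (dead_cons d1 dead_nil)

theorem start : pk (stt 2 4 true) = s0 := by
  rfl

theorem dead : Dead pmII [pk (stt 2 4 true)] := by
  rw [start]
  exact d0

end Pool.Agent.C8.CB
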