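import Pool.Agent.C8.Ops
import Pool.Agent.C8.CC0
import Pool.Agent.C8.CC1

/-!
# The certificate CC (generated)
-/

set_option autoImplicit false

namespace Pool.Agent.C8.CC

open Pool.Agent.R4.M8 (pmII pmII_ok stt)

theorem d42 : Dead pmII [s42] := run_dead pmII_ok c42 dead_nil
theorem d41 : Dead pmII [s41] := run_dead pmII_ok c41 (dead_cons d42 dead_nil)
theorem d40 : Dead pmII [s40] := run_dead pmII_ok c40 (dead_cons d41 dead_nil)
theorem d39 : Dead pmII [s39] := run_dead pmII_ok c39 dead_nil
theorem d38 : Dead pmII [s38] := run_dead pmII_ok c38 (dead_cons d39 dead_nil)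
theorem d37 : Dead pmII [s37] := run_dead pmII_ok c37 (dead_cons d38 dead_nil)
theorem d36 : Dead pmII [s36] := run_dead pmII_ok c36 dead_nil
theorem d35 : Dead pmII [s35] := run_dead pmII_ok c35 (dead_cons d36 dead_nil)
theorem d34 : Dead pmII [s34] := run_dead pmII_ok c34 (dead_cons d35 dead_nil)
theorem d33 : Dead pmII [s33] := run_dead pmII_ok c33 dead_nil
theorem d32 : Dead pmII [s32] := run_dead pmII_ok c32 (dead_cons d33 dead_nil)
theorem d31 : Dead pmII [s31] := run_dead pmII_ok c31 (dead_cons d32 (dead_cons d34 (dead_cons d37 (dead_cons d40 dead_nil))))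
theorem d30 : Dead pmII [s30] := run_dead pmII_ok c30 dead_nil
theorem d29 : Dead pmII [s29] := run_dead pmII_ok c29 (dead_cons d30 dead_nil)
theorem d28 : Dead pmII [s28] := run_dead pmII_ok c28 (dead_cons d29 dead_nil)
theorem d27 : Dead pmII [s27] := run_dead pmII_ok c27 dead_nil
theorem d26 : Dead pmII [s26] := run_dead pmII_ok c26 (dead_cons d27 dead_nil)
theorem d25 : Dead pmII [s25] := run_dead pmII_ok c25 dead_nil
theorem d24 : Dead pmII [s24] := run_dead pmII_ok c24 dead_nil
theorem d23 : Dead pmII [s23] := run_dead pmII_ok c23 (dead_cons d24 dead_nil)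
theorem d22 : Dead pmII [s22] := run_dead pmII_ok c22 (dead_cons d23 dead_nil)
theorem d21 : Dead pmII [s21] := run_dead pmII_ok c21 dead_nil
theorem d20 : Dead pmII [s20] := run_dead pmII_ok c20 dead_nil
theorem d19 : Dead pmII [s19] := run_dead pmII_ok c19 dead_nil
theorem d18 : Dead pmII [s18] := run_dead pmII_ok c18 dead_nil
theorem d17 : Dead pmII [s17] := run_dead pmII_ok c17 dead_nil
theorem d16 : Dead pmII [s16] := run_dead pmII_ok c16 (dead_cons d17 (dead_cons d18 (dead_cons d19 (dead_cons d20 dead_nil))))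
theorem d15 : Dead pmII [s15] := run_dead pmII_ok c15 (dead_cons d16 (dead_cons d21 (dead_cons d22 (dead_cons d25 dead_nil))))
theorem d14 : Dead pmII [s14] := run_dead pmII_ok c14 dead_nil
theorem d13 : Dead pmII [s13] := run_dead pmII_ok c13 dead_nil
theorem d12 : Dead pmII [s12] := run_dead pmII_ok c12 dead_nil
theorem d11 : Dead pmII [s11] := run_dead pmII_ok c11 dead_nil
theorem d10 : Dead pmII [s10] := run_dead pmII_ok c10 (dead_cons d11 (dead_cons d12 (dead_cons d13 dead_nil)))
theorem d9 : Dead pmII [s9] := run_dead pmII_ok c9 dead_nil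
theorem d8 : Dead pmII [s8] := run_dead pmII_ok c8 dead_nil
theorem d7 : Dead pmII [s7] := run_dead pmII_ok c7 dead_nil
theorem d6 : Dead pmII [s6] := run_dead pmII_ok c6 dead_nil
theorem d5 : Dead pmII [s5] := run_dead pmII_ok c5 dead_nil
theorem d4 : Dead pmII [s4] := run_dead pmII_ok c4 dead_nil
theorem d3 : Dead pmII [s3] := run_dead pmII_ok c3 (dead_cons d4 dead_nil)
theorem d2 : Dead pmII [s2] := run_dead pmII_ok c2 (dead_cons d3 (dead_cons d5 (dead_cons d6 (dead_cons d7 (dead_cons d8 dead_nil)))))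
theorem d1 : Dead pmII [s1] := run_dead pmII_ok c1 (dead_cons d2 (dead_cons d9 (dead_cons d10 (dead_cons d14 dead_nil))))
theorem d0 : Dead pmII [s0] := run_dead pmII_ok c0 (dead_cons d1 (dead_cons d15 (dead_cons d26 (dead_cons d28 (dead_cons d31 dead_nil)))))

theorem start : pk (stt 0 4 true) = s0 := by
  rfl

theorem dead : Dead pmII [pk (stt 0 4 true)] := by
  rw [start]
  exact d0

end Pool.Agent.C8.CC
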