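import Pool.Agent.C8.Ops
import Pool.Agent.C8.CD0
import Pool.Agent.C8.CD1
import Pool.Agent.C8.CD2

/-!
# The certificate CD (generated)
-/

set_option autoImplicit false

namespace Pool.Agent.C8.CD

open Pool.Agent.R4.M8 (pmI pmI_ok stt)

theorem d94 : Dead pmI [s94] := run_dead pmI_ok c94 dead_nil
theorem d93 : Dead pmI [s93] := run_dead pmI_ok c93 dead_nil
theorem d92 : Dead pmI [s92] := run_dead pmI_ok c92 dead_nil
theorem d91 : Dead pmI [s91] := run_dead pmI_ok c91 dead_nil
theorem d90 : Dead pmI [s90] := run_dead pmI_ok c90 (dead_cons d91 (dead_cons d92 (dead_cons d93 (dead_cons d94 dead_nil))))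
theorem d89 : Dead pmI [s89] := run_dead pmI_ok c89 dead_nil
theorem d88 : Dead pmI [s88] := run_dead pmI_ok c88 dead_nil
theorem d87 : Dead pmI [s87] := run_dead pmI_ok c87 dead_nil
theorem d86 : Dead pmI [s86] := run_dead pmI_ok c86 dead_nil
theorem d85 : Dead pmI [s85] := run_dead pmI_ok c85 dead_nil
theorem d84 : Dead pmI [s84] := run_dead pmI_ok c84 (dead_cons d85 (dead_cons d86 (dead_cons d87 (dead_cons d88 (dead_cons d89 (dead_cons d90 dead_nil))))))
theorem d83 : Dead pmI [s83] := run_dead pmI_ok c83 dead_nil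
theorem d82 : Dead pmI [s82] := run_dead pmI_ok c82 dead_nil
theorem d81 : Dead pmI [s81] := run_dead pmI_ok c81 dead_nil
theorem d80 : Dead pmI [s80] := run_dead pmI_ok c80 dead_nil
theorem d79 : Dead pmI [s79] := run_dead pmI_ok c79 (dead_cons d80 (dead_cons d81 (dead_cons d82 (dead_cons d83 dead_nil))))
theorem d78 : Dead pmI [s78] := run_dead pmI_ok c78 dead_nil
theorem d77 : Dead pmI [s77] := run_dead pmI_ok c77 dead_nil
theorem d76 : Dead pmI [s76] := run_dead pmI_ok c76 dead_nil
theorem d75 : Dead pmI [s75] := run_dead pmI_ok c75 dead_nil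
theorem d74 : Dead pmI [s74] := run_dead pmI_ok c74 (dead_cons d75 (dead_cons d76 (dead_cons d77 (dead_cons d78 dead_nil))))
theorem d73 : Dead pmI [s73] := run_dead pmI_ok c73 dead_nil
theorem d72 : Dead pmI [s72] := run_dead pmI_ok c72 dead_nil
theorem d71 : Dead pmI [s71] := run_dead pmI_ok c71 dead_nil
theorem d70 : Dead pmI [s70] := run_dead pmI_ok c70 (dead_cons d71 (dead_cons d72 (dead_cons d73 dead_nil)))
theorem d69 : Dead pmI [s69] := run_dead pmI_ok c69 dead_nil
theorem d68 : Dead pmI [s68] := run_dead pmI_ok c68 dead_nil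
theorem d67 : Dead pmI [s67] := run_dead pmI_ok c67 dead_nil
theorem d66 : Dead pmI [s66] := run_dead pmI_ok c66 dead_nil
theorem d65 : Dead pmI [s65] := run_dead pmI_ok c65 dead_nil
theorem d64 : Dead pmI [s64] := run_dead pmI_ok c64 (dead_cons d65 (dead_cons d66 (dead_cons d67 (dead_cons d68 (dead_cons d69 (dead_cons d70 dead_nil))))))
theorem d63 : Dead pmI [s63] := run_dead pmI_ok c63 dead_nil
theorem d62 : Dead pmI [s62] := run_dead pmI_ok c62 dead_nil
theorem d61 : Dead pmI [s61] := run_dead pmI_ok c61 dead_nil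
theorem d60 : Dead pmI [s60] := run_dead pmI_ok c60 (dead_cons d61 (dead_cons d62 (dead_cons d63 dead_nil)))
theorem d59 : Dead pmI [s59] := run_dead pmI_ok c59 dead_nil
theorem d58 : Dead pmI [s58] := run_dead pmI_ok c58 dead_nil
theorem d57 : Dead pmI [s57] := run_dead pmI_ok c57 dead_nil
theorem d56 : Dead pmI [s56] := run_dead pmI_ok c56 dead_nil
theorem d55 : Dead pmI [s55] := run_dead pmI_ok c55 (dead_cons d56 (dead_cons d57 (dead_cons d58 (dead_cons d59 dead_nil))))
theorem d54 : Dead pmI [s54] := run_dead pmI_ok c54 dead_nil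
theorem d53 : Dead pmI [s53] := run_dead pmI_ok c53 (dead_cons d54 (dead_cons d55 (dead_cons d60 (dead_cons d64 (dead_cons d74 (dead_cons d79 (dead_cons d84 dead_nil)))))))
theorem d52 : Dead pmI [s52] := run_dead pmI_ok c52 dead_nil
theorem d51 : Dead pmI [s51] := run_dead pmI_ok c51 dead_nil
theorem d50 : Dead pmI [s50] := run_dead pmI_ok c50 dead_nil
theorem d49 : Dead pmI [s49] := run_dead pmI_ok c49 dead_nil
theorem d48 : Dead pmI [s48] := run_dead pmI_ok c48 (dead_cons d49 (dead_cons d50 (dead_cons d51 (dead_cons d52 dead_nil))))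
theorem d47 : Dead pmI [s47] := run_dead pmI_ok c47 dead_nil
theorem d46 : Dead pmI [s46] := run_dead pmI_ok c46 dead_nil
theorem d45 : Dead pmI [s45] := run_dead pmI_ok c45 dead_nil
theorem d44 : Dead pmI [s44] := run_dead pmI_ok c44 dead_nil
theorem d43 : Dead pmI [s43] := run_dead pmI_ok c43 (dead_cons d44 (dead_cons d45 (dead_cons d46 (dead_cons d47 dead_nil))))
theorem d42 : Dead pmI [s42] := run_dead pmI_ok c42 dead_nil
theorem d41 : Dead pmI [s41] := run_dead pmI_ok c41 dead_nil
theorem d40 : Dead pmI [s40] := run_dead pmI_ok c40 dead_nil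
theorem d39 : Dead pmI [s39] := run_dead pmI_ok c39 dead_nil
theorem d38 : Dead pmI [s38] := run_dead pmI_ok c38 (dead_cons d39 (dead_cons d40 (dead_cons d41 (dead_cons d42 dead_nil))))
theorem d37 : Dead pmI [s37] := run_dead pmI_ok c37 dead_nil
theorem d36 : Dead pmI [s36] := run_dead pmI_ok c36 dead_nil
theorem d35 : Dead pmI [s35] := run_dead pmI_ok c35 dead_nil
theorem d34 : Dead pmI [s34] := run_dead pmI_ok c34 dead_nil
theorem d33 : Dead pmI [s33] := run_dead pmI_ok c33 dead_nil
theorem d32 : Dead pmI [s32] := run_dead pmI_ok c32 (dead_cons d33 (dead_cons d34 (dead_cons d35 (dead_cons d36 (dead_cons d37 dead_nil)))))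
theorem d31 : Dead pmI [s31] := run_dead pmI_ok c31 dead_nil
theorem d30 : Dead pmI [s30] := run_dead pmI_ok c30 dead_nil
theorem d29 : Dead pmI [s29] := run_dead pmI_ok c29 dead_nil
theorem d28 : Dead pmI [s28] := run_dead pmI_ok c28 dead_nil
theorem d27 : Dead pmI [s27] := run_dead pmI_ok c27 (dead_cons d28 (dead_cons d29 (dead_cons d30 (dead_cons d31 dead_nil))))
theorem d26 : Dead pmI [s26] := run_dead pmI_ok c26 dead_nil
theorem d25 : Dead pmI [s25] := run_dead pmI_ok c25 dead_nil
theorem d24 : Dead pmI [s24] := run_dead pmI_ok c24 dead_nil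
theorem d23 : Dead pmI [s23] := run_dead pmI_ok c23 dead_nil
theorem d22 : Dead pmI [s22] := run_dead pmI_ok c22 (dead_cons d23 (dead_cons d24 (dead_cons d25 (dead_cons d26 (dead_cons d27 dead_nil)))))
theorem d21 : Dead pmI [s21] := run_dead pmI_ok c21 dead_nil
theorem d20 : Dead pmI [s20] := run_dead pmI_ok c20 dead_nil
theorem d19 : Dead pmI [s19] := run_dead pmI_ok c19 dead_nil
theorem d18 : Dead pmI [s18] := run_dead pmI_ok c18 (dead_cons d19 (dead_cons d20 (dead_cons d21 dead_nil)))
theorem d17 : Dead pmI [s17] := run_dead pmI_ok c17 dead_nil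
theorem d16 : Dead pmI [s16] := run_dead pmI_ok c16 dead_nil
theorem d15 : Dead pmI [s15] := run_dead pmI_ok c15 dead_nil
theorem d14 : Dead pmI [s14] := run_dead pmI_ok c14 dead_nil
theorem d13 : Dead pmI [s13] := run_dead pmI_ok c13 (dead_cons d14 (dead_cons d15 (dead_cons d16 (dead_cons d17 (dead_cons d18 dead_nil)))))
theorem d12 : Dead pmI [s12] := run_dead pmI_ok c12 dead_nil
theorem d11 : Dead pmI [s11] := run_dead pmI_ok c11 dead_nil
theorem d10 : Dead pmI [s10] := run_dead pmI_ok c10 dead_nil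
theorem d9 : Dead pmI [s9] := run_dead pmI_ok c9 (dead_cons d10 (dead_cons d11 dead_nil))
theorem d8 : Dead pmI [s8] := run_dead pmI_ok c8 dead_nil
theorem d7 : Dead pmI [s7] := run_dead pmI_ok c7 (dead_cons d8 dead_nil)
theorem d6 : Dead pmI [s6] := run_dead pmI_ok c6 (dead_cons d7 (dead_cons d9 dead_nil))
theorem d5 : Dead pmI [s5] := run_dead pmI_ok c5 dead_nil
theorem d4 : Dead pmI [s4] := run_dead pmI_ok c4 (dead_cons d5 dead_nil)
theorem d3 : Dead pmI [s3] := run_dead pmI_ok c3 (dead_cons d4 dead_nil)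
theorem d2 : Dead pmI [s2] := run_dead pmI_ok c2 dead_nil
theorem d1 : Dead pmI [s1] := run_dead pmI_ok c1 (dead_cons d2 (dead_cons d3 dead_nil))
theorem d0 : Dead pmI [s0] := run_dead pmI_ok c0 (dead_cons d1 (dead_cons d6 (dead_cons d12 (dead_cons d13 (dead_cons d22 (dead_cons d32 (dead_cons d38 (dead_cons d43 (dead_cons d48 (dead_cons d53 dead_nil))))))))))

theorem start : pk (stt 4 2 false) = s0 := by
  rfl

theorem dead : Dead pmI [pk (stt 4 2 false)] := by
  rw [start]
  exact d0

end Pool.Agent.C8.CD
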