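import Pool.Agent.C8.Ops
import Pool.Agent.C8.CE0
import Pool.Agent.C8.CE1

/-!
# The certificate CE (generated)
-/

set_option autoImplicit false

namespace Pool.Agent.C8.CE

open Pool.Agent.R4.M8 (pmI pmI_ok stt)

theorem d51 : Dead pmI [s51] := run_dead pmI_ok c51 dead_nil
theorem d50 : Dead pmI [s50] := run_dead pmI_ok c50 (dead_cons d51 dead_nil)
theorem d49 : Dead pmI [s49] := run_dead pmI_ok c49 dead_nil
theorem d48 : Dead pmI [s48] := run_dead pmI_ok c48 dead_nil
theorem d47 : Dead pmI [s47] := run_dead pmI_ok c47 dead_nil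
theorem d46 : Dead pmI [s46] := run_dead pmI_ok c46 dead_nil
theorem d45 : Dead pmI [s45] := run_dead pmI_ok c45 (dead_cons d46 (dead_cons d47 (dead_cons d48 dead_nil)))
theorem d44 : Dead pmI [s44] := run_dead pmI_ok c44 dead_nil
theorem d43 : Dead pmI [s43] := run_dead pmI_ok c43 (dead_cons d44 dead_nil)
theorem d42 : Dead pmI [s42] := run_dead pmI_ok c42 dead_nil
theorem d41 : Dead pmI [s41] := run_dead pmI_ok c41 dead_nil
theorem d40 : Dead pmI [s40] := run_dead pmI_ok c40 dead_nil
theorem d39 : Dead pmI [s39] := run_dead pmI_ok c39 (dead_cons d40 dead_nil)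
theorem d38 : Dead pmI [s38] := run_dead pmI_ok c38 (dead_cons d39 (dead_cons d41 dead_nil))
theorem d37 : Dead pmI [s37] := run_dead pmI_ok c37 (dead_cons d38 (dead_cons d42 (dead_cons d43 dead_nil)))
theorem d36 : Dead pmI [s36] := run_dead pmI_ok c36 dead_nil
theorem d35 : Dead pmI [s35] := run_dead pmI_ok c35 dead_nil
theorem d34 : Dead pmI [s34] := run_dead pmI_ok c34 (dead_cons d35 dead_nil)
theorem d33 : Dead pmI [s33] := run_dead pmI_ok c33 dead_nil
theorem d32 : Dead pmI [s32] := run_dead pmI_ok c32 (dead_cons d33 dead_nil)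
theorem d31 : Dead pmI [s31] := run_dead pmI_ok c31 dead_nil
theorem d30 : Dead pmI [s30] := run_dead pmI_ok c30 dead_nil
theorem d29 : Dead pmI [s29] := run_dead pmI_ok c29 (dead_cons d30 (dead_cons d31 (dead_cons d32 dead_nil)))
theorem d28 : Dead pmI [s28] := run_dead pmI_ok c28 (dead_cons d29 (dead_cons d34 (dead_cons d36 dead_nil)))
theorem d27 : Dead pmI [s27] := run_dead pmI_ok c27 dead_nil
theorem d26 : Dead pmI [s26] := run_dead pmI_ok c26 dead_nil
theorem d25 : Dead pmI [s25] := run_dead pmI_ok c25 (dead_cons d26 dead_nil)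
theorem d24 : Dead pmI [s24] := run_dead pmI_ok c24 dead_nil
theorem d23 : Dead pmI [s23] := run_dead pmI_ok c23 dead_nil
theorem d22 : Dead pmI [s22] := run_dead pmI_ok c22 dead_nil
theorem d21 : Dead pmI [s21] := run_dead pmI_ok c21 (dead_cons d22 (dead_cons d23 (dead_cons d24 dead_nil)))
theorem d20 : Dead pmI [s20] := run_dead pmI_ok c20 (dead_cons d21 (dead_cons d25 (dead_cons d27 dead_nil)))
theorem d19 : Dead pmI [s19] := run_dead pmI_ok c19 dead_nil
theorem d18 : Dead pmI [s18] := run_dead pmI_ok c18 dead_nil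
theorem d17 : Dead pmI [s17] := run_dead pmI_ok c17 (dead_cons d18 dead_nil)
theorem d16 : Dead pmI [s16] := run_dead pmI_ok c16 (dead_cons d17 (dead_cons d19 dead_nil))
theorem d15 : Dead pmI [s15] := run_dead pmI_ok c15 dead_nil
theorem d14 : Dead pmI [s14] := run_dead pmI_ok c14 dead_nil
theorem d13 : Dead pmI [s13] := run_dead pmI_ok c13 (dead_cons d14 dead_nil)
theorem d12 : Dead pmI [s12] := run_dead pmI_ok c12 (dead_cons d13 (dead_cons d15 dead_nil))
theorem d11 : Dead pmI [s11] := run_dead pmI_ok c11 dead_nil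
theorem d10 : Dead pmI [s10] := run_dead pmI_ok c10 dead_nil
theorem d9 : Dead pmI [s9] := run_dead pmI_ok c9 dead_nil
theorem d8 : Dead pmI [s8] := run_dead pmI_ok c8 dead_nil
theorem d7 : Dead pmI [s7] := run_dead pmI_ok c7 dead_nil
theorem d6 : Dead pmI [s6] := run_dead pmI_ok c6 dead_nil
theorem d5 : Dead pmI [s5] := run_dead pmI_ok c5 dead_nil
theorem d4 : Dead pmI [s4] := run_dead pmI_ok c4 dead_nil
theorem d3 : Dead pmI [s3] := run_dead pmI_ok c3 dead_nil
theorem d2 : Dead pmI [s2] := run_dead pmI_ok c2 (dead_cons d3 (dead_cons d4 (dead_cons d5 (dead_cons d6 (dead_cons d7 (dead_cons d8 dead_nil))))))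
theorem d1 : Dead pmI [s1] := run_dead pmI_ok c1 (dead_cons d2 (dead_cons d9 (dead_cons d10 (dead_cons d11 dead_nil))))
theorem d0 : Dead pmI [s0] := run_dead pmI_ok c0 (dead_cons d1 (dead_cons d12 (dead_cons d16 (dead_cons d20 (dead_cons d28 (dead_cons d37 (dead_cons d45 (dead_cons d49 (dead_cons d50 dead_nil)))))))))

theorem start : pk (stt 0 2 false) = s0 := by
  rfl

theorem dead : Dead pmI [pk (stt 0 2 false)] := by
  rw [start]
  exact d0

end Pool.Agent.C8.CE
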