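import Pool.Agent.C8.Ops
import Pool.Agent.C8.CF0
import Pool.Agent.C8.CF1
import Pool.Agent.C8.CF2
import Pool.Agent.C8.CF3
import Pool.Agent.C8.CF4
import Pool.Agent.C8.CF5
import Pool.Agent.C8.CF6
import Pool.Agent.C8.CF7
import Pool.Agent.C8.CF8
import Pool.Agent.C8.CF9
import Pool.Agent.C8.CF10

/-!
# The certificate CF (generated)
-/

set_option autoImplicit false

namespace Pool.Agent.C8.CF

open Pool.Agent.R4.M8 (pmII pmII_ok stt)

theorem d293 : Dead pmII [s293] := run_dead pmII_ok c293 dead_nil
theorem d292 : Dead pmII [s292] := run_dead pmII_ok c292 dead_nil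
theorem d291 : Dead pmII [s291] := run_dead pmII_ok c291 dead_nil
theorem d290 : Dead pmII [s290] := run_dead pmII_ok c290 dead_nil
theorem d289 : Dead pmII [s289] := run_dead pmII_ok c289 (dead_cons d290 (dead_cons d291 (dead_cons d292 (dead_cons d293 dead_nil))))
theorem d288 : Dead pmII [s288] := run_dead pmII_ok c288 dead_nil
theorem d287 : Dead pmII [s287] := run_dead pmII_ok c287 dead_nil
theorem d286 : Dead pmII [s286] := run_dead pmII_ok c286 dead_nil
theorem d285 : Dead pmII [s285] := run_dead pmII_ok c285 dead_nil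
theorem d284 : Dead pmII [s284] := run_dead pmII_ok c284 (dead_cons d285 (dead_cons d286 (dead_cons d287 (dead_cons d288 dead_nil))))
theorem d283 : Dead pmII [s283] := run_dead pmII_ok c283 (dead_cons d284 dead_nil)
theorem d282 : Dead pmII [s282] := run_dead pmII_ok c282 (dead_cons d283 (dead_cons d289 dead_nil))
theorem d281 : Dead pmII [s281] := run_dead pmII_ok c281 dead_nil
theorem d280 : Dead pmII [s280] := run_dead pmII_ok c280 (dead_cons d281 dead_nil)
theorem d279 : Dead pmII [s279] := run_dead pmII_ok c279 dead_nil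
theorem d278 : Dead pmII [s278] := run_dead pmII_ok c278 dead_nil
theorem d277 : Dead pmII [s277] := run_dead pmII_ok c277 dead_nil
theorem d276 : Dead pmII [s276] := run_dead pmII_ok c276 dead_nil
theorem d275 : Dead pmII [s275] := run_dead pmII_ok c275 dead_nil
theorem d274 : Dead pmII [s274] := run_dead pmII_ok c274 (dead_cons d275 (dead_cons d276 (dead_cons d277 dead_nil)))
theorem d273 : Dead pmII [s273] := run_dead pmII_ok c273 dead_nil
theorem d272 : Dead pmII [s272] := run_dead pmII_ok c272 dead_nil
theorem d271 : Dead pmII [s271] := run_dead pmII_ok c271 (dead_cons d272 (dead_cons d273 dead_nil))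
theorem d270 : Dead pmII [s270] := run_dead pmII_ok c270 (dead_cons d271 (dead_cons d274 (dead_cons d278 (dead_cons d279 (dead_cons d280 dead_nil)))))
theorem d269 : Dead pmII [s269] := run_dead pmII_ok c269 dead_nil
theorem d268 : Dead pmII [s268] := run_dead pmII_ok c268 dead_nil
theorem d267 : Dead pmII [s267] := run_dead pmII_ok c267 (dead_cons d268 (dead_cons d269 dead_nil))
theorem d266 : Dead pmII [s266] := run_dead pmII_ok c266 dead_nil
theorem d265 : Dead pmII [s265] := run_dead pmII_ok c265 dead_nil
theorem d264 : Dead pmII [s264] := run_dead pmII_ok c264 (dead_cons d265 (dead_cons d266 dead_nil))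
theorem d263 : Dead pmII [s263] := run_dead pmII_ok c263 (dead_cons d264 (dead_cons d267 (dead_cons d270 dead_nil)))
theorem d262 : Dead pmII [s262] := run_dead pmII_ok c262 dead_nil
theorem d261 : Dead pmII [s261] := run_dead pmII_ok c261 dead_nil
theorem d260 : Dead pmII [s260] := run_dead pmII_ok c260 (dead_cons d261 (dead_cons d262 dead_nil))
theorem d259 : Dead pmII [s259] := run_dead pmII_ok c259 dead_nil
theorem d258 : Dead pmII [s258] := run_dead pmII_ok c258 (dead_cons d259 (dead_cons d260 dead_nil))
theorem d257 : Dead pmII [s257] := run_dead pmII_ok c257 dead_nil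
theorem d256 : Dead pmII [s256] := run_dead pmII_ok c256 dead_nil
theorem d255 : Dead pmII [s255] := run_dead pmII_ok c255 (dead_cons d256 (dead_cons d257 dead_nil))
theorem d254 : Dead pmII [s254] := run_dead pmII_ok c254 dead_nil
theorem d253 : Dead pmII [s253] := run_dead pmII_ok c253 (dead_cons d254 dead_nil)
theorem d252 : Dead pmII [s252] := run_dead pmII_ok c252 dead_nil
theorem d251 : Dead pmII [s251] := run_dead pmII_ok c251 dead_nil
theorem d250 : Dead pmII [s250] := run_dead pmII_ok c250 (dead_cons d251 (dead_cons d252 dead_nil))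
theorem d249 : Dead pmII [s249] := run_dead pmII_ok c249 dead_nil
theorem d248 : Dead pmII [s248] := run_dead pmII_ok c248 (dead_cons d249 dead_nil)
theorem d247 : Dead pmII [s247] := run_dead pmII_ok c247 (dead_cons d248 dead_nil)
theorem d246 : Dead pmII [s246] := run_dead pmII_ok c246 (dead_cons d247 (dead_cons d250 dead_nil))
theorem d245 : Dead pmII [s245] := run_dead pmII_ok c245 (dead_cons d246 (dead_cons d253 (dead_cons d255 dead_nil)))
theorem d244 : Dead pmII [s244] := run_dead pmII_ok c244 dead_nil
theorem d243 : Dead pmII [s243] := run_dead pmII_ok c243 dead_nil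
theorem d242 : Dead pmII [s242] := run_dead pmII_ok c242 (dead_cons d243 (dead_cons d244 dead_nil))
theorem d241 : Dead pmII [s241] := run_dead pmII_ok c241 dead_nil
theorem d240 : Dead pmII [s240] := run_dead pmII_ok c240 dead_nil
theorem d239 : Dead pmII [s239] := run_dead pmII_ok c239 (dead_cons d240 dead_nil)
theorem d238 : Dead pmII [s238] := run_dead pmII_ok c238 dead_nil
theorem d237 : Dead pmII [s237] := run_dead pmII_ok c237 (dead_cons d238 dead_nil)
theorem d236 : Dead pmII [s236] := run_dead pmII_ok c236 dead_nil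
theorem d235 : Dead pmII [s235] := run_dead pmII_ok c235 (dead_cons d236 dead_nil)
theorem d234 : Dead pmII [s234] := run_dead pmII_ok c234 dead_nil
theorem d233 : Dead pmII [s233] := run_dead pmII_ok c233 dead_nil
theorem d232 : Dead pmII [s232] := run_dead pmII_ok c232 (dead_cons d233 (dead_cons d234 (dead_cons d235 dead_nil)))
theorem d231 : Dead pmII [s231] := run_dead pmII_ok c231 (dead_cons d232 (dead_cons d237 (dead_cons d239 dead_nil)))
theorem d230 : Dead pmII [s230] := run_dead pmII_ok c230 dead_nil
theorem d229 : Dead pmII [s229] := run_dead pmII_ok c229 (dead_cons d230 dead_nil)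
theorem d228 : Dead pmII [s228] := run_dead pmII_ok c228 dead_nil
theorem d227 : Dead pmII [s227] := run_dead pmII_ok c227 dead_nil
theorem d226 : Dead pmII [s226] := run_dead pmII_ok c226 (dead_cons d227 dead_nil)
theorem d225 : Dead pmII [s225] := run_dead pmII_ok c225 dead_nil
theorem d224 : Dead pmII [s224] := run_dead pmII_ok c224 dead_nil
theorem d223 : Dead pmII [s223] := run_dead pmII_ok c223 (dead_cons d224 dead_nil)
theorem d222 : Dead pmII [s222] := run_dead pmII_ok c222 dead_nil
theorem d221 : Dead pmII [s221] := run_dead pmII_ok c221 dead_nil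
theorem d220 : Dead pmII [s220] := run_dead pmII_ok c220 dead_nil
theorem d219 : Dead pmII [s219] := run_dead pmII_ok c219 (dead_cons d220 (dead_cons d221 (dead_cons d222 (dead_cons d223 (dead_cons d225 dead_nil)))))
theorem d218 : Dead pmII [s218] := run_dead pmII_ok c218 dead_nil
theorem d217 : Dead pmII [s217] := run_dead pmII_ok c217 (dead_cons d218 (dead_cons d219 (dead_cons d226 dead_nil)))
theorem d216 : Dead pmII [s216] := run_dead pmII_ok c216 dead_nil
theorem d215 : Dead pmII [s215] := run_dead pmII_ok c215 dead_nil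
theorem d214 : Dead pmII [s214] := run_dead pmII_ok c214 (dead_cons d215 (dead_cons d216 dead_nil))
theorem d213 : Dead pmII [s213] := run_dead pmII_ok c213 dead_nil
theorem d212 : Dead pmII [s212] := run_dead pmII_ok c212 (dead_cons d213 dead_nil)
theorem d211 : Dead pmII [s211] := run_dead pmII_ok c211 dead_nil
theorem d210 : Dead pmII [s210] := run_dead pmII_ok c210 dead_nil
theorem d209 : Dead pmII [s209] := run_dead pmII_ok c209 dead_nil
theorem d208 : Dead pmII [s208] := run_dead pmII_ok c208 dead_nil
theorem d207 : Dead pmII [s207] := run_dead pmII_ok c207 dead_nil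
theorem d206 : Dead pmII [s206] := run_dead pmII_ok c206 (dead_cons d207 (dead_cons d208 (dead_cons d209 (dead_cons d210 (dead_cons d211 dead_nil)))))
theorem d205 : Dead pmII [s205] := run_dead pmII_ok c205 dead_nil
theorem d204 : Dead pmII [s204] := run_dead pmII_ok c204 dead_nil
theorem d203 : Dead pmII [s203] := run_dead pmII_ok c203 dead_nil
theorem d202 : Dead pmII [s202] := run_dead pmII_ok c202 dead_nil
theorem d201 : Dead pmII [s201] := run_dead pmII_ok c201 (dead_cons d202 (dead_cons d203 (dead_cons d204 (dead_cons d205 dead_nil))))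
theorem d200 : Dead pmII [s200] := run_dead pmII_ok c200 (dead_cons d201 (dead_cons d206 dead_nil))
theorem d199 : Dead pmII [s199] := run_dead pmII_ok c199 (dead_cons d200 (dead_cons d212 (dead_cons d214 (dead_cons d217 dead_nil))))
theorem d198 : Dead pmII [s198] := run_dead pmII_ok c198 (dead_cons d199 (dead_cons d228 (dead_cons d229 (dead_cons d231 (dead_cons d241 dead_nil)))))
theorem d197 : Dead pmII [s197] := run_dead pmII_ok c197 dead_nil
theorem d196 : Dead pmII [s196] := run_dead pmII_ok c196 (dead_cons d197 dead_nil)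
theorem d195 : Dead pmII [s195] := run_dead pmII_ok c195 dead_nil
theorem d194 : Dead pmII [s194] := run_dead pmII_ok c194 (dead_cons d195 dead_nil)
theorem d193 : Dead pmII [s193] := run_dead pmII_ok c193 dead_nil
theorem d192 : Dead pmII [s192] := run_dead pmII_ok c192 (dead_cons d193 dead_nil)
theorem d191 : Dead pmII [s191] := run_dead pmII_ok c191 (dead_cons d192 dead_nil)
theorem d190 : Dead pmII [s190] := run_dead pmII_ok c190 dead_nil
theorem d189 : Dead pmII [s189] := run_dead pmII_ok c189 (dead_cons d190 dead_nil)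
theorem d188 : Dead pmII [s188] := run_dead pmII_ok c188 (dead_cons d189 (dead_cons d191 dead_nil))
theorem d187 : Dead pmII [s187] := run_dead pmII_ok c187 dead_nil
theorem d186 : Dead pmII [s186] := run_dead pmII_ok c186 dead_nil
theorem d185 : Dead pmII [s185] := run_dead pmII_ok c185 dead_nil
theorem d184 : Dead pmII [s184] := run_dead pmII_ok c184 (dead_cons d185 (dead_cons d186 (dead_cons d187 dead_nil)))
theorem d183 : Dead pmII [s183] := run_dead pmII_ok c183 dead_nil
theorem d182 : Dead pmII [s182] := run_dead pmII_ok c182 dead_nil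
theorem d181 : Dead pmII [s181] := run_dead pmII_ok c181 dead_nil
theorem d180 : Dead pmII [s180] := run_dead pmII_ok c180 dead_nil
theorem d179 : Dead pmII [s179] := run_dead pmII_ok c179 (dead_cons d180 (dead_cons d181 (dead_cons d182 (dead_cons d183 dead_nil))))
theorem d178 : Dead pmII [s178] := run_dead pmII_ok c178 (dead_cons d179 (dead_cons d184 dead_nil))
theorem d177 : Dead pmII [s177] := run_dead pmII_ok c177 (dead_cons d178 dead_nil)
theorem d176 : Dead pmII [s176] := run_dead pmII_ok c176 dead_nil
theorem d175 : Dead pmII [s175] := run_dead pmII_ok c175 (dead_cons d176 dead_nil)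
theorem d174 : Dead pmII [s174] := run_dead pmII_ok c174 dead_nil
theorem d173 : Dead pmII [s173] := run_dead pmII_ok c173 (dead_cons d174 dead_nil)
theorem d172 : Dead pmII [s172] := run_dead pmII_ok c172 (dead_cons d173 dead_nil)
theorem d171 : Dead pmII [s171] := run_dead pmII_ok c171 (dead_cons d172 (dead_cons d175 (dead_cons d177 (dead_cons d188 (dead_cons d194 (dead_cons d196 dead_nil))))))
theorem d170 : Dead pmII [s170] := run_dead pmII_ok c170 dead_nil
theorem d169 : Dead pmII [s169] := run_dead pmII_ok c169 (dead_cons d170 dead_nil)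
theorem d168 : Dead pmII [s168] := run_dead pmII_ok c168 dead_nil
theorem d167 : Dead pmII [s167] := run_dead pmII_ok c167 (dead_cons d168 dead_nil)
theorem d166 : Dead pmII [s166] := run_dead pmII_ok c166 dead_nil
theorem d165 : Dead pmII [s165] := run_dead pmII_ok c165 (dead_cons d166 dead_nil)
theorem d164 : Dead pmII [s164] := run_dead pmII_ok c164 dead_nil
theorem d163 : Dead pmII [s163] := run_dead pmII_ok c163 dead_nil
theorem d162 : Dead pmII [s162] := run_dead pmII_ok c162 dead_nil
theorem d161 : Dead pmII [s161] := run_dead pmII_ok c161 dead_nil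
theorem d160 : Dead pmII [s160] := run_dead pmII_ok c160 (dead_cons d161 (dead_cons d162 (dead_cons d163 (dead_cons d164 dead_nil))))
theorem d159 : Dead pmII [s159] := run_dead pmII_ok c159 (dead_cons d160 (dead_cons d165 dead_nil))
theorem d158 : Dead pmII [s158] := run_dead pmII_ok c158 (dead_cons d159 dead_nil)
theorem d157 : Dead pmII [s157] := run_dead pmII_ok c157 (dead_cons d158 dead_nil)
theorem d156 : Dead pmII [s156] := run_dead pmII_ok c156 dead_nil
theorem d155 : Dead pmII [s155] := run_dead pmII_ok c155 dead_nil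
theorem d154 : Dead pmII [s154] := run_dead pmII_ok c154 (dead_cons d155 (dead_cons d156 dead_nil))
theorem d153 : Dead pmII [s153] := run_dead pmII_ok c153 dead_nil
theorem d152 : Dead pmII [s152] := run_dead pmII_ok c152 dead_nil
theorem d151 : Dead pmII [s151] := run_dead pmII_ok c151 (dead_cons d152 (dead_cons d153 dead_nil))
theorem d150 : Dead pmII [s150] := run_dead pmII_ok c150 dead_nil
theorem d149 : Dead pmII [s149] := run_dead pmII_ok c149 dead_nil
theorem d148 : Dead pmII [s148] := run_dead pmII_ok c148 (dead_cons d149 (dead_cons d150 dead_nil))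
theorem d147 : Dead pmII [s147] := run_dead pmII_ok c147 (dead_cons d148 (dead_cons d151 (dead_cons d154 dead_nil)))
theorem d146 : Dead pmII [s146] := run_dead pmII_ok c146 dead_nil
theorem d145 : Dead pmII [s145] := run_dead pmII_ok c145 dead_nil
theorem d144 : Dead pmII [s144] := run_dead pmII_ok c144 dead_nil
theorem d143 : Dead pmII [s143] := run_dead pmII_ok c143 (dead_cons d144 (dead_cons d145 dead_nil))
theorem d142 : Dead pmII [s142] := run_dead pmII_ok c142 dead_nil
theorem d141 : Dead pmII [s141] := run_dead pmII_ok c141 dead_nil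
theorem d140 : Dead pmII [s140] := run_dead pmII_ok c140 (dead_cons d141 (dead_cons d142 dead_nil))
theorem d139 : Dead pmII [s139] := run_dead pmII_ok c139 dead_nil
theorem d138 : Dead pmII [s138] := run_dead pmII_ok c138 dead_nil
theorem d137 : Dead pmII [s137] := run_dead pmII_ok c137 (dead_cons d138 (dead_cons d139 dead_nil))
theorem d136 : Dead pmII [s136] := run_dead pmII_ok c136 (dead_cons d137 (dead_cons d140 (dead_cons d143 dead_nil)))
theorem d135 : Dead pmII [s135] := run_dead pmII_ok c135 (dead_cons d136 (dead_cons d146 (dead_cons d147 (dead_cons d157 (dead_cons d167 (dead_cons d169 (dead_cons d171 (dead_cons d198 dead_nil))))))))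
theorem d134 : Dead pmII [s134] := run_dead pmII_ok c134 dead_nil
theorem d133 : Dead pmII [s133] := run_dead pmII_ok c133 dead_nil
theorem d132 : Dead pmII [s132] := run_dead pmII_ok c132 (dead_cons d133 (dead_cons d134 dead_nil))
theorem d131 : Dead pmII [s131] := run_dead pmII_ok c131 (dead_cons d132 (dead_cons d135 dead_nil))
theorem d130 : Dead pmII [s130] := run_dead pmII_ok c130 dead_nil
theorem d129 : Dead pmII [s129] := run_dead pmII_ok c129 dead_nil
theorem d128 : Dead pmII [s128] := run_dead pmII_ok c128 (dead_cons d129 (dead_cons d130 dead_nil))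
theorem d127 : Dead pmII [s127] := run_dead pmII_ok c127 dead_nil
theorem d126 : Dead pmII [s126] := run_dead pmII_ok c126 (dead_cons d127 dead_nil)
theorem d125 : Dead pmII [s125] := run_dead pmII_ok c125 dead_nil
theorem d124 : Dead pmII [s124] := run_dead pmII_ok c124 (dead_cons d125 dead_nil)
theorem d123 : Dead pmII [s123] := run_dead pmII_ok c123 (dead_cons d124 (dead_cons d126 dead_nil))
theorem d122 : Dead pmII [s122] := run_dead pmII_ok c122 (dead_cons d123 dead_nil)
theorem d121 : Dead pmII [s121] := run_dead pmII_ok c121 dead_nil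
theorem d120 : Dead pmII [s120] := run_dead pmII_ok c120 dead_nil
theorem d119 : Dead pmII [s119] := run_dead pmII_ok c119 (dead_cons d120 dead_nil)
theorem d118 : Dead pmII [s118] := run_dead pmII_ok c118 (dead_cons d119 dead_nil)
theorem d117 : Dead pmII [s117] := run_dead pmII_ok c117 dead_nil
theorem d116 : Dead pmII [s116] := run_dead pmII_ok c116 (dead_cons d117 dead_nil)
theorem d115 : Dead pmII [s115] := run_dead pmII_ok c115 (dead_cons d116 dead_nil)
theorem d114 : Dead pmII [s114] := run_dead pmII_ok c114 (dead_cons d115 (dead_cons d118 (dead_cons d121 (dead_cons d122 dead_nil))))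
theorem d113 : Dead pmII [s113] := run_dead pmII_ok c113 dead_nil
theorem d112 : Dead pmII [s112] := run_dead pmII_ok c112 dead_nil
theorem d111 : Dead pmII [s111] := run_dead pmII_ok c111 (dead_cons d112 (dead_cons d113 dead_nil))
theorem d110 : Dead pmII [s110] := run_dead pmII_ok c110 dead_nil
theorem d109 : Dead pmII [s109] := run_dead pmII_ok c109 (dead_cons d110 dead_nil)
theorem d108 : Dead pmII [s108] := run_dead pmII_ok c108 dead_nil
theorem d107 : Dead pmII [s107] := run_dead pmII_ok c107 (dead_cons d108 dead_nil)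
theorem d106 : Dead pmII [s106] := run_dead pmII_ok c106 dead_nil
theorem d105 : Dead pmII [s105] := run_dead pmII_ok c105 (dead_cons d106 dead_nil)
theorem d104 : Dead pmII [s104] := run_dead pmII_ok c104 dead_nil
theorem d103 : Dead pmII [s103] := run_dead pmII_ok c103 dead_nil
theorem d102 : Dead pmII [s102] := run_dead pmII_ok c102 (dead_cons d103 (dead_cons d104 (dead_cons d105 dead_nil)))
theorem d101 : Dead pmII [s101] := run_dead pmII_ok c101 (dead_cons d102 (dead_cons d107 (dead_cons d109 dead_nil)))
theorem d100 : Dead pmII [s100] := run_dead pmII_ok c100 dead_nil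
theorem d99 : Dead pmII [s99] := run_dead pmII_ok c99 dead_nil
theorem d98 : Dead pmII [s98] := run_dead pmII_ok c98 dead_nil
theorem d97 : Dead pmII [s97] := run_dead pmII_ok c97 (dead_cons d98 (dead_cons d99 dead_nil))
theorem d96 : Dead pmII [s96] := run_dead pmII_ok c96 dead_nil
theorem d95 : Dead pmII [s95] := run_dead pmII_ok c95 dead_nil
theorem d94 : Dead pmII [s94] := run_dead pmII_ok c94 (dead_cons d95 (dead_cons d96 dead_nil))
theorem d93 : Dead pmII [s93] := run_dead pmII_ok c93 dead_nil
theorem d92 : Dead pmII [s92] := run_dead pmII_ok c92 dead_nil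
theorem d91 : Dead pmII [s91] := run_dead pmII_ok c91 (dead_cons d92 dead_nil)
theorem d90 : Dead pmII [s90] := run_dead pmII_ok c90 dead_nil
theorem d89 : Dead pmII [s89] := run_dead pmII_ok c89 dead_nil
theorem d88 : Dead pmII [s88] := run_dead pmII_ok c88 dead_nil
theorem d87 : Dead pmII [s87] := run_dead pmII_ok c87 (dead_cons d88 (dead_cons d89 (dead_cons d90 (dead_cons d91 (dead_cons d93 dead_nil)))))
theorem d86 : Dead pmII [s86] := run_dead pmII_ok c86 dead_nil
theorem d85 : Dead pmII [s85] := run_dead pmII_ok c85 (dead_cons d86 (dead_cons d87 (dead_cons d94 dead_nil)))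
theorem d84 : Dead pmII [s84] := run_dead pmII_ok c84 dead_nil
theorem d83 : Dead pmII [s83] := run_dead pmII_ok c83 (dead_cons d84 dead_nil)
theorem d82 : Dead pmII [s82] := run_dead pmII_ok c82 dead_nil
theorem d81 : Dead pmII [s81] := run_dead pmII_ok c81 dead_nil
theorem d80 : Dead pmII [s80] := run_dead pmII_ok c80 dead_nil
theorem d79 : Dead pmII [s79] := run_dead pmII_ok c79 dead_nil
theorem d78 : Dead pmII [s78] := run_dead pmII_ok c78 (dead_cons d79 (dead_cons d80 (dead_cons d81 (dead_cons d82 dead_nil))))
theorem d77 : Dead pmII [s77] := run_dead pmII_ok c77 dead_nil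
theorem d76 : Dead pmII [s76] := run_dead pmII_ok c76 (dead_cons d77 (dead_cons d78 dead_nil))
theorem d75 : Dead pmII [s75] := run_dead pmII_ok c75 (dead_cons d76 (dead_cons d83 (dead_cons d85 (dead_cons d97 dead_nil))))
theorem d74 : Dead pmII [s74] := run_dead pmII_ok c74 dead_nil
theorem d73 : Dead pmII [s73] := run_dead pmII_ok c73 dead_nil
theorem d72 : Dead pmII [s72] := run_dead pmII_ok c72 (dead_cons d73 (dead_cons d74 (dead_cons d75 (dead_cons d100 (dead_cons d101 dead_nil)))))
theorem d71 : Dead pmII [s71] := run_dead pmII_ok c71 dead_nil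
theorem d70 : Dead pmII [s70] := run_dead pmII_ok c70 dead_nil
theorem d69 : Dead pmII [s69] := run_dead pmII_ok c69 dead_nil
theorem d68 : Dead pmII [s68] := run_dead pmII_ok c68 dead_nil
theorem d67 : Dead pmII [s67] := run_dead pmII_ok c67 (dead_cons d68 (dead_cons d69 dead_nil))
theorem d66 : Dead pmII [s66] := run_dead pmII_ok c66 dead_nil
theorem d65 : Dead pmII [s65] := run_dead pmII_ok c65 dead_nil
theorem d64 : Dead pmII [s64] := run_dead pmII_ok c64 dead_nil
theorem d63 : Dead pmII [s63] := run_dead pmII_ok c63 (dead_cons d64 dead_nil)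
theorem d62 : Dead pmII [s62] := run_dead pmII_ok c62 (dead_cons d63 (dead_cons d65 (dead_cons d66 dead_nil)))
theorem d61 : Dead pmII [s61] := run_dead pmII_ok c61 dead_nil
theorem d60 : Dead pmII [s60] := run_dead pmII_ok c60 dead_nil
theorem d59 : Dead pmII [s59] := run_dead pmII_ok c59 (dead_cons d60 (dead_cons d61 dead_nil))
theorem d58 : Dead pmII [s58] := run_dead pmII_ok c58 (dead_cons d59 (dead_cons d62 dead_nil))
theorem d57 : Dead pmII [s57] := run_dead pmII_ok c57 (dead_cons d58 (dead_cons d67 (dead_cons d70 (dead_cons d71 dead_nil))))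
theorem d56 : Dead pmII [s56] := run_dead pmII_ok c56 dead_nil
theorem d55 : Dead pmII [s55] := run_dead pmII_ok c55 dead_nil
theorem d54 : Dead pmII [s54] := run_dead pmII_ok c54 dead_nil
theorem d53 : Dead pmII [s53] := run_dead pmII_ok c53 dead_nil
theorem d52 : Dead pmII [s52] := run_dead pmII_ok c52 (dead_cons d53 (dead_cons d54 (dead_cons d55 (dead_cons d56 dead_nil))))
theorem d51 : Dead pmII [s51] := run_dead pmII_ok c51 dead_nil
theorem d50 : Dead pmII [s50] := run_dead pmII_ok c50 dead_nil
theorem d49 : Dead pmII [s49] := run_dead pmII_ok c49 dead_nil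
theorem d48 : Dead pmII [s48] := run_dead pmII_ok c48 (dead_cons d49 (dead_cons d50 (dead_cons d51 dead_nil)))
theorem d47 : Dead pmII [s47] := run_dead pmII_ok c47 (dead_cons d48 (dead_cons d52 dead_nil))
theorem d46 : Dead pmII [s46] := run_dead pmII_ok c46 dead_nil
theorem d45 : Dead pmII [s45] := run_dead pmII_ok c45 dead_nil
theorem d44 : Dead pmII [s44] := run_dead pmII_ok c44 (dead_cons d45 dead_nil)
theorem d43 : Dead pmII [s43] := run_dead pmII_ok c43 dead_nil
theorem d42 : Dead pmII [s42] := run_dead pmII_ok c42 dead_nil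
theorem d41 : Dead pmII [s41] := run_dead pmII_ok c41 (dead_cons d42 (dead_cons d43 (dead_cons d44 dead_nil)))
theorem d40 : Dead pmII [s40] := run_dead pmII_ok c40 dead_nil
theorem d39 : Dead pmII [s39] := run_dead pmII_ok c39 dead_nil
theorem d38 : Dead pmII [s38] := run_dead pmII_ok c38 (dead_cons d39 (dead_cons d40 dead_nil))
theorem d37 : Dead pmII [s37] := run_dead pmII_ok c37 (dead_cons d38 (dead_cons d41 (dead_cons d46 (dead_cons d47 (dead_cons d57 dead_nil)))))
theorem d36 : Dead pmII [s36] := run_dead pmII_ok c36 dead_nil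
theorem d35 : Dead pmII [s35] := run_dead pmII_ok c35 dead_nil
theorem d34 : Dead pmII [s34] := run_dead pmII_ok c34 dead_nil
theorem d33 : Dead pmII [s33] := run_dead pmII_ok c33 dead_nil
theorem d32 : Dead pmII [s32] := run_dead pmII_ok c32 (dead_cons d33 dead_nil)
theorem d31 : Dead pmII [s31] := run_dead pmII_ok c31 dead_nil
theorem d30 : Dead pmII [s30] := run_dead pmII_ok c30 dead_nil
theorem d29 : Dead pmII [s29] := run_dead pmII_ok c29 (dead_cons d30 (dead_cons d31 (dead_cons d32 dead_nil)))
theorem d28 : Dead pmII [s28] := run_dead pmII_ok c28 (dead_cons d29 (dead_cons d34 (dead_cons d35 dead_nil)))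
theorem d27 : Dead pmII [s27] := run_dead pmII_ok c27 dead_nil
theorem d26 : Dead pmII [s26] := run_dead pmII_ok c26 (dead_cons d27 (dead_cons d28 dead_nil))
theorem d25 : Dead pmII [s25] := run_dead pmII_ok c25 (dead_cons d26 dead_nil)
theorem d24 : Dead pmII [s24] := run_dead pmII_ok c24 dead_nil
theorem d23 : Dead pmII [s23] := run_dead pmII_ok c23 dead_nil
theorem d22 : Dead pmII [s22] := run_dead pmII_ok c22 (dead_cons d23 (dead_cons d24 dead_nil))
theorem d21 : Dead pmII [s21] := run_dead pmII_ok c21 dead_nil
theorem d20 : Dead pmII [s20] := run_dead pmII_ok c20 dead_nil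
theorem d19 : Dead pmII [s19] := run_dead pmII_ok c19 (dead_cons d20 (dead_cons d21 dead_nil))
theorem d18 : Dead pmII [s18] := run_dead pmII_ok c18 dead_nil
theorem d17 : Dead pmII [s17] := run_dead pmII_ok c17 dead_nil
theorem d16 : Dead pmII [s16] := run_dead pmII_ok c16 (dead_cons d17 (dead_cons d18 dead_nil))
theorem d15 : Dead pmII [s15] := run_dead pmII_ok c15 (dead_cons d16 (dead_cons d19 (dead_cons d22 dead_nil)))
theorem d14 : Dead pmII [s14] := run_dead pmII_ok c14 dead_nil
theorem d13 : Dead pmII [s13] := run_dead pmII_ok c13 dead_nil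
theorem d12 : Dead pmII [s12] := run_dead pmII_ok c12 (dead_cons d13 (dead_cons d14 dead_nil))
theorem d11 : Dead pmII [s11] := run_dead pmII_ok c11 dead_nil
theorem d10 : Dead pmII [s10] := run_dead pmII_ok c10 dead_nil
theorem d9 : Dead pmII [s9] := run_dead pmII_ok c9 (dead_cons d10 (dead_cons d11 dead_nil))
theorem d8 : Dead pmII [s8] := run_dead pmII_ok c8 dead_nil
theorem d7 : Dead pmII [s7] := run_dead pmII_ok c7 dead_nil
theorem d6 : Dead pmII [s6] := run_dead pmII_ok c6 (dead_cons d7 (dead_cons d8 dead_nil))
theorem d5 : Dead pmII [s5] := run_dead pmII_ok c5 dead_nil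
theorem d4 : Dead pmII [s4] := run_dead pmII_ok c4 dead_nil
theorem d3 : Dead pmII [s3] := run_dead pmII_ok c3 (dead_cons d4 dead_nil)
theorem d2 : Dead pmII [s2] := run_dead pmII_ok c2 (dead_cons d3 (dead_cons d5 (dead_cons d6 (dead_cons d9 (dead_cons d12 (dead_cons d15 (dead_cons d25 (dead_cons d36 (dead_cons d37 (dead_cons d72 dead_nil))))))))))
theorem d1 : Dead pmII [s1] := run_dead pmII_ok c1 (dead_cons d2 (dead_cons d111 dead_nil))
theorem d0 : Dead pmII [s0] := run_dead pmII_ok c0 (dead_cons d1 (dead_cons d114 (dead_cons d128 (dead_cons d131 (dead_cons d242 (dead_cons d245 (dead_cons d258 (dead_cons d263 (dead_cons d282 dead_nil)))))))))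

theorem start : pk (stt 0 2 true) = s0 := by
  rfl

theorem dead : Dead pmII [pk (stt 0 2 true)] := by
  rw [start]
  exact d0

end Pool.Agent.C8.CF
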