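import Pool.Agent.C8.CA
import Pool.Agent.C8.CB
import Pool.Agent.C8.CC
import Pool.Agent.C8.CD
import Pool.Agent.C8.CE
import Pool.Agent.C8.CF

/-!
# The six certificates (helper14; streams helper35 and helper82)
-/

set_option autoImplicit false

namespace Pool.Agent.C8

/-- all certificates for the regular case of value groups of order 8 -/
theorem all_certs : R4.M8.Certs := certs CE.dead CD.dead CF.dead CA.dead CC.dead CB.dead

end Pool.Agent.C8
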