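import Pool.Agent.C8.Ops
import Pool.Agent.C8.CA0

/-!
# The certificate CA (generated)
-/

set_option autoImplicit false

namespace Pool.Agent.C8.CA

open Pool.Agent.R4.M8 (pmII pmII_ok stt)

theorem d20 : Dead pmII [s20] := run_dead pmII_ok c20 dead_nil
theorem d19 : Dead pmII [s19] := run_dead pmII_ok c19 dead_nil
theorem d18 : Dead pmII [s18] := run_dead pmII_ok c18 dead_nil
theorem d17 : Dead pmII [s17] := run_dead pmII_ok c17 dead_nil
theorem d16 : Dead pmII [s16] := run_dead pmII_ok c16 (dead_cons d17 (dead_cons d18 (dead_cons d19 dead_nil)))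
theorem d15 : Dead pmII [s15] := run_dead pmII_ok c15 dead_nil
theorem d14 : Dead pmII [s14] := run_dead pmII_ok c14 dead_nil
theorem d13 : Dead pmII [s13] := run_dead pmII_ok c13 dead_nil
theorem d12 : Dead pmII [s12] := run_dead pmII_ok c12 (dead_cons d13 (dead_cons d14 (dead_cons d15 dead_nil)))
theorem d11 : Dead pmII [s11] := run_dead pmII_ok c11 (dead_cons d12 (dead_cons d16 dead_nil))
theorem d10 : Dead pmII [s10] := run_dead pmII_ok c10 dead_nil
theorem d9 : Dead pmII [s9] := run_dead pmII_ok c9 (dead_cons d10 dead_nil)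
theorem d8 : Dead pmII [s8] := run_dead pmII_ok c8 dead_nil
theorem d7 : Dead pmII [s7] := run_dead pmII_ok c7 (dead_cons d8 dead_nil)
theorem d6 : Dead pmII [s6] := run_dead pmII_ok c6 dead_nil
theorem d5 : Dead pmII [s5] := run_dead pmII_ok c5 (dead_cons d6 dead_nil)
theorem d4 : Dead pmII [s4] := run_dead pmII_ok c4 dead_nil
theorem d3 : Dead pmII [s3] := run_dead pmII_ok c3 (dead_cons d4 dead_nil)
theorem d2 : Dead pmII [s2] := run_dead pmII_ok c2 (dead_cons d3 dead_nil)
theorem d1 : Dead pmII [s1] := run_dead pmII_ok c1 (dead_cons d2 (dead_cons d5 (dead_cons d7 (dead_cons d9 (dead_cons d11 (dead_cons d20 dead_nil))))))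
theorem d0 : Dead pmII [s0] := run_dead pmII_ok c0 (dead_cons d1 dead_nil)

theorem start : pk (stt 4 2 true) = s0 := by
  rfl

theorem dead : Dead pmII [pk (stt 4 2 true)] := by
  rw [start]
  exact d0

end Pool.Agent.C8.CA
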