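/-!
# A checker for link chases, made for the kernel (helper14)

Elements are masks `< 4096` over generators; the first generators are `y, a, b, z, p, q`.
A fact `u + 4096 v` says that `u` and `v` commute.  The number `F` holds 48 bits for each fact
(newest first): the code `u + 4096 v` and the code `v + 4096 u`.  The number `R` holds 48 bits for
each relation: `u1, u2, v, w` with `q (u1, v) = q (u2, w)`.  The certificate `s` is a number read
in base 4096.  Everything is written with recursors and continuations; no Mathlib is needed here.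
-/

set_option autoImplicit false
set_option linter.unusedVariables false

namespace Pool.Agent.C8

/-- a state: number of generators, facts, relations -/
structure St where
  n : Nat
  F : Nat
  R : Nat

/-- if then else -/
noncomputable def br (b : Bool) (x y : Bool) : Bool := @Bool.rec (fun _ => Bool) y x b

/-- code of the oriented fact `i` -/
noncomputable def fc (F i : Nat) : Nat := Nat.land (Nat.shiftRight F (Nat.mul 24 i)) 16777215

/-- digit of `R` -/
noncomputable def dR (R i : Nat) : Nat := Nat.land (Nat.shiftRight R (Nat.mul 12 i)) 4095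

/-- add a fact -/
noncomputable def pf (u x F : Nat) : Nat :=
  Nat.add (Nat.mul 281474976710656 F) (Nat.add (Nat.mul 68719476737 u) (Nat.mul 16781312 x))

/-- add a relation -/
noncomputable def pr (a b c d R : Nat) : Nat :=
  Nat.add a (Nat.mul 4096 (Nat.add b (Nat.mul 4096 (Nat.add c (Nat.mul 4096
    (Nat.add d (Nat.mul 4096 R)))))))

/-- a chain: each fact has the first or the second entry in common with the sum so far -/
noncomputable def ch (F : Nat) (K : Nat → Nat → Nat → Bool) (k : Nat) :
    Nat → Nat → Nat → Bool :=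
  @Nat.rec (fun _ => Nat → Nat → Nat → Bool) (fun s u x => K s u x)
    (fun _ ih s u x =>
      (fun c : Nat =>
        @Bool.rec (fun _ => Bool)
          (@Bool.rec (fun _ => Bool) false
            (ih (Nat.shiftRight s 12) (Nat.xor u (Nat.land c 4095)) x)
            (Nat.beq (Nat.shiftRight c 12) x))
          (ih (Nat.shiftRight s 12) u (Nat.xor x (Nat.shiftRight c 12)))
          (Nat.beq (Nat.land c 4095) u))
      (Nat.land (Nat.shiftRight F (Nat.mul 24 (Nat.land s 4095))) 16777215)) k

/-- sum of facts -/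
noncomputable def sL (F u1 u2 u3 g : Nat) (K : Nat → Nat → Nat → Nat → Bool) (k : Nat) :
    Nat → Nat → Nat → Nat → Bool :=
  @Nat.rec (fun _ => Nat → Nat → Nat → Nat → Bool) (fun s h v w => K s h v w)
    (fun _ ih s h v w =>
      (fun (u x s' : Nat) =>
        @Bool.rec (fun _ => Bool)
          (@Bool.rec (fun _ => Bool)
            (@Bool.rec (fun _ => Bool)
              (@Bool.rec (fun _ => Bool) false
                (ih s' (Nat.xor h x) (Nat.xor v x) (Nat.xor w x)) (Nat.beq u u3))
              (ih s' (Nat.xor h x) v (Nat.xor w x)) (Nat.beq u u2))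
            (ih s' (Nat.xor h x) (Nat.xor v x) w) (Nat.beq u u1))
          (ih s' (Nat.xor h x) v w) (Nat.beq u g))
      (Nat.land (fc F (Nat.land s 4095)) 4095) (Nat.shiftRight (fc F (Nat.land s 4095)) 12)
      (Nat.shiftRight s 12)) k

/-- sum of facts as relations -/
noncomputable def sR (F u1 u2 u3 : Nat) (K : Nat → Nat → Nat → Bool) (k : Nat) :
    Nat → Nat → Nat → Bool :=
  @Nat.rec (fun _ => Nat → Nat → Nat → Bool) (fun s v w => K s v w)
    (fun _ ih s v w =>
      (fun (u x s' : Nat) =>
        @Bool.rec (fun _ => Bool)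
          (@Bool.rec (fun _ => Bool)
            (@Bool.rec (fun _ => Bool) false
              (ih s' (Nat.xor v x) (Nat.xor w x)) (Nat.beq u u3))
            (ih s' v (Nat.xor w x)) (Nat.beq u u2))
          (ih s' (Nat.xor v x) w) (Nat.beq u u1))
      (Nat.land (fc F (Nat.land s 4095)) 4095) (Nat.shiftRight (fc F (Nat.land s 4095)) 12)
      (Nat.shiftRight s 12)) k

/-- sum of relations; `4095` is the relation `u1 u2 = u2 u1` -/
noncomputable def sX (R u1 u2 : Nat) (K : Nat → Nat → Nat → Bool) (k : Nat) :
    Nat → Nat → Nat → Bool :=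
  @Nat.rec (fun _ => Nat → Nat → Nat → Bool) (fun s v w => K s v w)
    (fun _ ih s v w =>
      @Bool.rec (fun _ => Bool)
        (@Bool.rec (fun _ => Bool) false
          (@Bool.rec (fun _ => Bool) false
            (ih (Nat.shiftRight s 12)
              (Nat.xor v (dR R (Nat.add (Nat.mul 4 (Nat.land s 4095)) 2)))
              (Nat.xor w (dR R (Nat.add (Nat.mul 4 (Nat.land s 4095)) 3))))
            (Nat.beq (dR R (Nat.add (Nat.mul 4 (Nat.land s 4095)) 1)) u2))
          (Nat.beq (dR R (Nat.mul 4 (Nat.land s 4095))) u1))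
        (ih (Nat.shiftRight s 12) (Nat.xor v u2) (Nat.xor w u1))
        (Nat.beq (Nat.land s 4095) 4095)) k

/-- two lists -/
noncomputable def sr (F R u1 u2 v w s : Nat) (K : Nat → Nat → Nat → Bool) : Bool :=
  sR F u1 u2 (Nat.xor u1 u2)
    (fun s v w => sX R u1 u2 K (Nat.land s 4095) (Nat.shiftRight s 12) v w)
    (Nat.land s 4095) (Nat.shiftRight s 12) v w

/-- three lists -/
noncomputable def sn (F R u1 u2 g s h v w : Nat) (K : Nat → Nat → Nat → Nat → Bool) : Bool :=
  sL F (Nat.xor u1 g) (Nat.xor u2 g) (Nat.xor (Nat.xor u1 u2) g) g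
    (fun s h v w => sr F R u1 u2 v w s (fun s v w => K s h v w))
    (Nat.land s 4095) (Nat.shiftRight s 12) h v w

/-- `h0` and three lists -/
noncomputable def sm (n F R u1 u2 g s : Nat) (K : Nat → Nat → Nat → Nat → Bool) : Bool :=
  br (Nat.beq (Nat.land s 4095) 0) (sn F R u1 u2 g (Nat.shiftRight s 12) 0 0 0 K)
  (br (Nat.blt (Nat.land s 4095) (Nat.pow 2 n))
    (br (Nat.beq g u2)
      (sn F R u1 u2 g (Nat.shiftRight s 12) (Nat.land s 4095) 0 (Nat.land s 4095) K)
    (br (Nat.beq g u1)
      (sn F R u1 u2 g (Nat.shiftRight s 12) (Nat.land s 4095) (Nat.land s 4095) 0 K)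
    (br (Nat.beq g (Nat.xor u1 u2))
      (sn F R u1 u2 g (Nat.shiftRight s 12) (Nat.land s 4095) (Nat.land s 4095)
        (Nat.land s 4095) K)
    false)))
  false)

/-- plane, `g`, sum -/
noncomputable def s3 (n F R s : Nat) (K : Nat → Nat → Nat → Nat → Nat → Nat → Nat → Bool) :
    Bool :=
  (fun u1 u2 g : Nat => br (Nat.blt u1 (Nat.pow 2 n)) (br (Nat.blt u2 (Nat.pow 2 n))
    (br (Nat.blt g (Nat.pow 2 n)) (sm n F R u1 u2 g (Nat.shiftRight s 36) (K u1 u2 g)) false)
    false) false)
    (Nat.land s 4095) (Nat.land (Nat.shiftRight s 12) 4095) (Nat.land (Nat.shiftRight s 24) 4095)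

/-- read `k` digits -/
noncomputable def rd (K : List Nat → Nat → Bool) (k : Nat) : List Nat → Nat → Bool :=
  @Nat.rec (fun _ => List Nat → Nat → Bool) (fun L s => K L s)
    (fun _ ih L s => ih (Nat.land s 4095 :: L) (Nat.shiftRight s 12)) k

/-- read a list (in reverse order) -/
noncomputable def rl (s : Nat) (K : List Nat → Nat → Bool) : Bool :=
  rd K (Nat.land s 4095) [] (Nat.shiftRight s 12)

/-- all subset sums -/
noncomputable def span (L : List Nat) : List Nat :=
  @List.rec Nat (fun _ => List Nat) [0]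
    (fun a _ ih => List.append ih (List.map (fun m => Nat.xor a m) ih)) L

/-- children of a branching, in the order of the stream -/
noncomputable def kids (n F R g h : Nat) (L : List Nat) (l : List St) : List St :=
  @List.rec Nat (fun _ => List St → List St) (fun l => l)
    (fun d _ ih l => ih (⟨n, pf g (Nat.xor h d) F, R⟩ :: l)) L l

/-- `k` sums `h, v, 0` in planes `1, p2` for `g` in `2, .., 7`; xor of the `h` -/
noncomputable def sG (n F R : Nat) (K : Nat → Nat → Bool) (k : Nat) : Nat → Nat → Bool :=
  @Nat.rec (fun _ => Nat → Nat → Bool) (fun x s => K x s)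
    (fun _ ih x s =>
      (fun c p2 : Nat => br (Nat.ble 2 c) (br (Nat.blt c 8) (br (Nat.blt p2 (Nat.pow 2 n))
        (sm n F R 1 p2 c (Nat.shiftRight s 24) (fun s h v w =>
          br (Nat.beq w 0) (ih (Nat.xor x h) s) false)) false) false) false)
      (Nat.land s 4095) (Nat.land (Nat.shiftRight s 12) 4095)) k

/-- `1` in each of the first `k` digits -/
noncomputable def ones (k : Nat) : Nat := Nat.div (Nat.sub (Nat.pow 4096 k) 1) 4095

/-- substitute in `k` digits at once: add `v + d` to all digits with bit `t` -/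
noncomputable def mp (t v d k F : Nat) : Nat :=
  Nat.xor F (Nat.mul (Nat.land (Nat.shiftRight F t) (ones k)) (Nat.xor v d))

/-- the eight children of a collapse -/
noncomputable def col (n F R t v k k' : Nat) (l : List St) : List St :=
  ⟨n, mp t v 0 k F, mp t v 0 k' R⟩ :: ⟨n, mp t v 1 k F, mp t v 1 k' R⟩ ::
  ⟨n, mp t v 2 k F, mp t v 2 k' R⟩ :: ⟨n, mp t v 3 k F, mp t v 3 k' R⟩ ::
  ⟨n, mp t v 4 k F, mp t v 4 k' R⟩ :: ⟨n, mp t v 5 k F, mp t v 5 k' R⟩ ::
  ⟨n, mp t v 6 k F, mp t v 6 k' R⟩ :: ⟨n, mp t v 7 k F, mp t v 7 k' R⟩ :: l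

/-- chain -/
noncomputable def o11 (n F R s : Nat) (l : List St) (K : List St → Nat → Bool) : Bool :=
  ch F (fun s u x => K (⟨n, pf u x F, R⟩ :: l) s) (Nat.land s 4095) (Nat.shiftRight s 24)
    (Nat.land (fc F (Nat.land (Nat.shiftRight s 12) 4095)) 4095)
    (Nat.shiftRight (fc F (Nat.land (Nat.shiftRight s 12) 4095)) 12)

/-- fact -/
noncomputable def o1 (n F R s : Nat) (l : List St) (K : List St → Nat → Bool) : Bool :=
  s3 n F R s (fun u1 u2 g s h v w => br (Nat.beq v 0) (br (Nat.beq w 0)
    (K (⟨n, pf g h F, R⟩ :: l) s) false) false)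

/-- self -/
noncomputable def o0 (n F R s : Nat) (l : List St) (K : List St → Nat → Bool) : Bool :=
  (fun x => br (Nat.blt x (Nat.pow 2 n)) (K (⟨n, pf x x F, R⟩ :: l) (Nat.shiftRight s 12))
    false) (Nat.land s 4095)

/-- relation -/
noncomputable def o2 (n F R s : Nat) (l : List St) (K : List St → Nat → Bool) : Bool :=
  s3 n F R s (fun u1 u2 g s h v w => br (Nat.beq h 0)
    (K (⟨n, F, pr u1 u2 v w R⟩ :: l) s) false)

/-- closed: z in G_y + V_y -/
noncomputable def o10 (fl zp : Bool) (n F R s : Nat) (l : List St) (K : List St → Nat → Bool) :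
    Bool :=
  br fl (br zp (sG n F R (fun x s => br (Nat.blt x 8) (K l s) false) (Nat.land s 4095) 8
    (Nat.shiftRight s 12)) false) false

/-- closed: y p or y q in z V_y -/
noncomputable def o8 (zp : Bool) (F R s : Nat) (l : List St) (K : List St → Nat → Bool) :
    Bool :=
  sr F R 1 8 0 0 s (fun s v w => br zp (br (Nat.blt w 8)
    (br (Nat.beq v 16) (K l s) (br (Nat.beq v 32) (K l s) false)) false) false)

/-- closed: z a and z b in Q_y -/
noncomputable def o9 (zp : Bool) (F R s : Nat) (l : List St) (K : List St → Nat → Bool) :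
    Bool :=
  sr F R 1 8 0 0 s (fun s _ w => sr F R 1 8 0 0 s (fun s _ w' => br zp (br (Nat.beq w 2)
    (br (Nat.beq w' 4) (K l s) false) false) false))

/-- the set of all `d + x`, as a number -/
noncomputable def row (d : Nat) (S : List Nat) : Nat :=
  @List.rec Nat (fun _ => Nat) 0 (fun x _ ih => Nat.lor ih (Nat.shiftLeft 1 (Nat.xor d x))) S

/-- the set of all sums -/
noncomputable def msk (S D : List Nat) : Nat :=
  @List.rec Nat (fun _ => Nat) 0 (fun d _ ih => Nat.lor ih (row d S)) D

/-- is the list `D` a transversal? -/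
noncomputable def ok3 (F g : Nat) (L D : List Nat) : Bool :=
  br (List.all L (fun i => br (Nat.beq (Nat.land (fc F i) 4095) g)
    (Nat.blt (Nat.shiftRight (fc F i) 12) 8) false))
  (br (List.all D (fun d => Nat.blt d 8))
  (Nat.beq (msk (span (List.map (fun i => Nat.shiftRight (fc F i) 12) L)) D) 255) false) false

/-- branching -/
noncomputable def o3 (n F R s : Nat) (l : List St) (K : List St → Nat → Bool) : Bool :=
  (fun u2 g : Nat => br (Nat.blt u2 (Nat.pow 2 n)) (br (Nat.blt g (Nat.pow 2 n))
    (sm n F R 1 u2 g (Nat.shiftRight s 24) (fun s h v w => br (Nat.beq w 0)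
      (rl s (fun L s => rl s (fun D s => br (ok3 F g L D)
        (K (kids n F R g (Nat.xor h v) D l) s) false))) false)) false) false)
    (Nat.land s 4095) (Nat.land (Nat.shiftRight s 12) 4095)

/-- closed: core -/
noncomputable def o6 (cb F s : Nat) (l : List St) (K : List St → Nat → Bool) : Bool :=
  (fun c => br (Nat.beq (Nat.land c 4095) 1) (br (Nat.ble 8 (Nat.shiftRight c 12))
    (br (Nat.blt (Nat.shiftRight c 12) (Nat.pow 2 cb)) (K l (Nat.shiftRight s 12)) false) false)
    false) (fc F (Nat.land s 4095))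

/-- closed: a b = 0 -/
noncomputable def o7 (F s : Nat) (l : List St) (K : List St → Nat → Bool) : Bool :=
  br (Nat.beq (fc F (Nat.land s 4095)) 16386) (K l (Nat.shiftRight s 12)) false

/-- collapse; the stream gives the bit and the numbers of digits -/
noncomputable def o5 (cb n F R s : Nat) (l : List St) (K : List St → Nat → Bool) : Bool :=
  (fun c => br (Nat.beq (Nat.land c 4095) 1) (br (Nat.ble (Nat.pow 2 cb) (Nat.shiftRight c 12))
    (K (col n F R (Nat.land (Nat.shiftRight s 12) 4095) (Nat.shiftRight c 12)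
      (Nat.land (Nat.shiftRight s 24) 4095) (Nat.land (Nat.shiftRight s 36) 4095) l)
      (Nat.shiftRight s 48)) false) false) (fc F (Nat.land s 4095))

/-- link -/
noncomputable def o4 (n F R s : Nat) (l : List St) (K : List St → Nat → Bool) : Bool :=
  s3 n F R s (fun p u2 g s h v w => br (Nat.beq w 0) (br (Nat.blt n 12)
    (K (⟨Nat.succ n, pf (Nat.xor g p) (Nat.pow 2 n) (pf p (Nat.xor v (Nat.pow 2 n))
      (pf g (Nat.xor h (Nat.pow 2 n)) F)), R⟩ :: l) s) false) false)

/-- the rare instructions -/
noncomputable def step2 (cb : Nat) (fl zp : Bool) (n F R o s : Nat) (l : List St)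
    (K : List St → Nat → Bool) : Bool :=
  br (Nat.beq o 2) (o2 n F R s l K)
  (br (Nat.beq o 10) (o10 fl zp n F R s l K)
  (br (Nat.beq o 8) (o8 zp F R s l K)
  (br (Nat.beq o 9) (o9 zp F R s l K)
  (br (Nat.beq o 3) (o3 n F R s l K)
  (br (Nat.beq o 6) (o6 cb F s l K)
  (br (Nat.beq o 7) (o7 F s l K)
  (br (Nat.beq o 5) (o5 cb n F R s l K)
  (br (Nat.beq o 4) (o4 n F R s l K)
  false))))))))

/-- facts and self -/
noncomputable def step1 (cb : Nat) (fl zp : Bool) (n F R o s : Nat) (l : List St)
    (K : List St → Nat → Bool) : Bool :=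
  br (Nat.beq o 1) (o1 n F R s l K)
  (br (Nat.beq o 0) (o0 n F R s l K) (step2 cb fl zp n F R o s l K))

/-- one instruction; `s` starts after the opcode `o`, `l` is the rest of the stack -/
noncomputable def step (cb : Nat) (fl zp : Bool) (n F R o s : Nat) (l : List St)
    (K : List St → Nat → Bool) : Bool :=
  br (Nat.beq o 11) (o11 n F R s l K) (step1 cb fl zp n F R o s l K)

/-- equality of states -/
noncomputable def eqb (a b : St) : Bool :=
  @St.rec (fun _ => Bool) (fun n F R => @St.rec (fun _ => Bool) (fun n' F' R' =>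
    br (Nat.beq n n') (br (Nat.beq F F') (Nat.beq R R') false) false) b) a

/-- run the instructions on a stack of states; opcode `4095` uses the next known state of `C` -/
noncomputable def run (cb : Nat) (fl zp : Bool) (k : Nat) : List St → Nat → List St → Bool :=
  @Nat.rec (fun _ => List St → Nat → List St → Bool)
    (fun l _ _ => @List.rec St (fun _ => Bool) true (fun _ _ _ => false) l)
    (fun _ ih l s C => @List.rec St (fun _ => Bool) true
      (fun st l _ => br (Nat.beq (Nat.land s 4095) 4095)
        (@List.rec St (fun _ => Bool) false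
          (fun c C' _ => br (eqb st c) (ih l (Nat.shiftRight s 12) C') false) C)
        (@St.rec (fun _ => Bool) (fun n F R =>
          step cb fl zp n F R (Nat.land s 4095) (Nat.shiftRight s 12) l
            (fun l' s' => ih l' s' C)) st)) l) k

end Pool.Agent.C8
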