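import Pool.Agent.C8.Sound

/-!
# Soundness of the instructions of C8/K.lean (helper14)
-/

set_option autoImplicit false
set_option linter.unusedSectionVars false
set_option linter.unusedVariables false
set_option linter.unusedSimpArgs false

namespace Pool.Agent.C8

open Pool.Agent.Helper58.PLine (QData)
open Pool.Agent.ETCP
open Pool.Agent.R4 (f2 Plane uv)
open Pool.Agent.R4.M8 (Pm ev ev_zero ev_xor GY Base PmOk xlt contrib uv_1 uv_2 uv_3 uv_0 um_1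
  um_2 um_3 vl vl_xor vl_0 vl_v0 vl_0w Pl pow_le ev_upd ev_new br_sound)
open Pool.Agent.R4.N8 (dg dg_lt dg_cons0 dg_consS dg_div dg_zero dg_0 beq_t blt_t ble_t cF cR
  h8n h6n c2 FH mapD cF_eq Ok Md)

/-- the state for the soundness proof -/
def cv (st : St) : R4.N8.St := ⟨st.n, st.F, st.R⟩

/-- what one instruction has to satisfy -/
def Go (pm : Pm) (st : R4.N8.St) (l l' : List St) : Prop :=
  (∀ c ∈ l, c ∈ l') ∧ ∀ (V Q : Type) [AddCommGroup V] [Module (ZMod 2) V] (S : QData V Q),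
    Pl S → Ok pm st → ∀ h, Base pm S h → Md S h st →
    ∃ c ∈ l', Ok pm (cv c) ∧ ∃ h', Base pm S h' ∧ Md S h' (cv c)

variable {pm : Pm} {n F R s : ℕ} {l : List St} {K : List St → ℕ → Bool}

theorem go1 {st : R4.N8.St} {c : St} (H : ∀ (V Q : Type) [AddCommGroup V] [Module (ZMod 2) V]
    (S : QData V Q), Pl S → Ok pm st → ∀ h, Base pm S h → Md S h st →
    Ok pm (cv c) ∧ ∃ h', Base pm S h' ∧ Md S h' (cv c)) : Go pm st l (c :: l) := by
  refine ⟨fun c hc => List.mem_cons_of_mem _ hc, ?_⟩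
  intro V Q _ _ S hP O h B M
  exact ⟨c, List.mem_cons_self, H V Q S hP O h B M⟩

theorem go0 {st : R4.N8.St} (H : ∀ (V Q : Type) [AddCommGroup V] [Module (ZMod 2) V]
    (S : QData V Q), Pl S → Ok pm st → ∀ h, Base pm S h → Md S h st → False) :
    Go pm st l l := by
  refine ⟨fun c hc => hc, ?_⟩
  intro V Q _ _ S hP O h B M
  exact (H V Q S hP O h B M).elim

section
variable {V Q : Type} [AddCommGroup V] [Module (ZMod 2) V] {S : QData V Q}
  {h : ℕ → V} {st : R4.N8.St}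

theorem ok_pf (O : Ok pm ⟨n, F, R⟩) {u x : ℕ} (hu : u < 2 ^ n) (hx : x < 2 ^ n) :
    Ok pm ⟨n, pf u x F, R⟩ := by
  rw [pf_eq]
  exact (O.consF (g := x) (x := u) hx hu).consF (g := u) (x := x) hu hx

theorem fh_pf (H : FH S h F) {u x : ℕ} (hu : u < 4096) (hx : x < 4096)
    (hc : C S (ev h u) (ev h x)) : FH S h (pf u x F) := by
  rw [pf_eq]
  exact FH.cons (FH.cons H hx hu hc.symm) hu hx hc

theorem md_pf (M : Md S h ⟨n, F, R⟩) {u x : ℕ} (hu : u < 4096) (hx : x < 4096)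
    (hc : C S (ev h u) (ev h x)) : Md S h ⟨n, pf u x F, R⟩ :=
  ⟨fh_pf M.f hu hx hc, M.r⟩

end

theorem o11_s (e : o11 n F R s l K = true) :
    ∃ l' s', K l' s' = true ∧ Go pm ⟨n, F, R⟩ l l' := by
  obtain ⟨s', u, x, hK, r⟩ := ch_s _ _ _ _ e
  refine ⟨_, s', hK, go1 ?_⟩
  intro V Q _ _ S hP O h B M
  rw [lo_eq, hi_eq] at r
  obtain ⟨h1, h2, h3⟩ := r.sound M O (M.f _) (O.f _) (O.f _)
  exact ⟨ok_pf O h2 h3, h, B, md_pf M (O.lt h2) (O.lt h3) h1⟩

theorem s3_s {K : ℕ → ℕ → ℕ → ℕ → ℕ → ℕ → ℕ → Bool} (e : s3 n F R s K = true) :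
    ∃ u1 u2 g s' h v w, K u1 u2 g s' h v w = true ∧ u1 < 2 ^ n ∧ u2 < 2 ^ n ∧ g < 2 ^ n ∧
      RM n F R u1 u2 g h v w := by
  obtain ⟨b1, e⟩ := br_t e
  obtain ⟨b2, e⟩ := br_t e
  obtain ⟨b3, e⟩ := br_t e
  obtain ⟨s', h, v, w, hK, r⟩ := sm_s e
  exact ⟨_, _, _, s', h, v, w, hK, blt_t b1, blt_t b2, blt_t b3, r⟩

theorem o1_s (e : o1 n F R s l K = true) :
    ∃ l' s', K l' s' = true ∧ Go pm ⟨n, F, R⟩ l l' := by
  obtain ⟨u1, u2, g, s', x, v, w, e, g1, g2, g3, r⟩ := s3_s e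
  obtain ⟨b1, e⟩ := br_t e
  obtain ⟨b2, e⟩ := br_t e
  refine ⟨_, s', e, go1 ?_⟩
  intro V Q _ _ S hP O h B M
  obtain ⟨R', _, _, ⟨P⟩⟩ := hP (ev h u1) (ev h u2)
  obtain ⟨k1, k2, k3, k4⟩ := r.sound P M O g1 g2
  rw [beq_t b1, beq_t b2, vl_0, Plane.T.zero_iff] at k1
  exact ⟨ok_pf O g3 k2, h, B, md_pf M (O.lt g3) (O.lt k2) k1⟩

theorem o0_s (e : o0 n F R s l K = true) :
    ∃ l' s', K l' s' = true ∧ Go pm ⟨n, F, R⟩ l l' := by
  obtain ⟨b, e⟩ := br_t e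
  have hx := blt_t b
  refine ⟨_, _, e, go1 ?_⟩
  intro V Q _ _ S hP O h B M
  exact ⟨ok_pf O hx hx, h, B, md_pf M (O.lt hx) (O.lt hx) (C.self B.he _)⟩

theorem o2_s (e : o2 n F R s l K = true) :
    ∃ l' s', K l' s' = true ∧ Go pm ⟨n, F, R⟩ l l' := by
  obtain ⟨u1, u2, g, s', x, v, w, e, g1, g2, g3, r⟩ := s3_s e
  obtain ⟨b1, e⟩ := br_t e
  refine ⟨_, s', e, go1 ?_⟩
  intro V Q _ _ S hP O h B M
  obtain ⟨R', _, _, ⟨P⟩⟩ := hP (ev h u1) (ev h u2)
  obtain ⟨k1, k2, k3, k4⟩ := r.sound P M O g1 g2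
  rw [beq_t b1, ev_zero] at k1
  have k5 : P.Y (ev h v) = P.Z (ev h w) := f2 k1.func
  rw [P.yz] at k5
  exact ⟨O.consR g1 g2 k3 k4, h, B, M.consR (O.lt g1) (O.lt g2) (O.lt k3) (O.lt k4) k5⟩

/-- sums for the last instruction -/
inductive RG (n F R : ℕ) : ℕ → ℕ → Prop
  | nil (x : ℕ) : RG n F R x x
  | cons {x x' : ℕ} (c p2 h v : ℕ) (h1 : 2 ≤ c) (h2 : c < 8) (h3 : p2 < 2 ^ n)
      (r : RM n F R 1 p2 c h v 0) (t : RG n F R (x ^^^ h) x') : RG n F R x x'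

theorem sG_s {K : ℕ → ℕ → Bool} : ∀ (k x s : ℕ), sG n F R K k x s = true →
    ∃ x' s', K x' s' = true ∧ RG n F R x x'
  | 0, x, s, e => ⟨x, s, e, RG.nil x⟩
  | k + 1, x, s, e => by
    have e' : br (Nat.ble 2 (Nat.land s 4095)) (br (Nat.blt (Nat.land s 4095) 8)
        (br (Nat.blt (Nat.land (Nat.shiftRight s 12) 4095) (Nat.pow 2 n))
        (sm n F R 1 (Nat.land (Nat.shiftRight s 12) 4095) (Nat.land s 4095)
          (Nat.shiftRight s 24) (fun s h v w =>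
          br (Nat.beq w 0) (sG n F R K k (Nat.xor x h) s) false)) false) false) false = true := e
    obtain ⟨b1, e'⟩ := br_t e'
    obtain ⟨b2, e'⟩ := br_t e'
    obtain ⟨b3, e'⟩ := br_t e'
    obtain ⟨s', h, v, w, e', r⟩ := sm_s e'
    obtain ⟨b4, e'⟩ := br_t e'
    rw [beq_t b4] at r
    obtain ⟨x', s'', hK, t⟩ := sG_s k _ _ e'
    exact ⟨x', s'', hK, RG.cons _ _ h v (ble_t b1) (blt_t b2) (blt_t b3) r t⟩

theorem RG.sound {V Q : Type} [AddCommGroup V] [Module (ZMod 2) V] {S : QData V Q} {h : ℕ → V}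
    (hP : Pl S) (O : Ok pm ⟨n, F, R⟩) (hpm : PmOk pm) (B : Base pm S h)
    (M : Md S h ⟨n, F, R⟩) (hf : pm.fl = true) {x x' : ℕ} (r : RG n F R x x') :
    GY S h (ev h (x ^^^ x')) := by
  have h8 : 8 ≤ 2 ^ n := h8n hpm O
  induction r with
  | nil x =>
    rw [Nat.xor_self, ev_zero]
    exact GY.zero
  | @cons x x' c p2 y v h1 h2 h3 r t ih =>
    obtain ⟨R', _, _, ⟨P⟩⟩ := hP (ev h 1) (ev h p2)
    obtain ⟨k1, k2, k3, k4⟩ := r.sound P M O (by show 1 < 2 ^ n; omega) h3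
    rw [vl_v0, ← um_1, Plane.T.um_iff, uv_1] at k1
    have k5 := B.gy hf _ h1 h2 _ _ k1
    have k6 := k5.add ih
    rw [← ev_xor] at k6
    have e3 : y ^^^ ((x ^^^ y) ^^^ x') = x ^^^ x' := by
      rw [Nat.xor_comm x y, Nat.xor_assoc, ← Nat.xor_assoc, Nat.xor_self, Nat.zero_xor]
    rw [← e3]
    exact k6

theorem o10_s (hpm : PmOk pm) (e : o10 pm.fl pm.zp n F R s l K = true) :
    ∃ l' s', K l' s' = true ∧ Go pm ⟨n, F, R⟩ l l' := by
  obtain ⟨g1, e⟩ := br_t e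
  obtain ⟨g2, e⟩ := br_t e
  obtain ⟨x, s', e, r⟩ := sG_s _ _ _ e
  obtain ⟨b, e⟩ := br_t e
  refine ⟨_, s', e, go0 ?_⟩
  intro V Q _ _ S hP O h B M
  have k1 := r.sound hP O hpm B M g1
  have k2 := k1.add (B.gd g1 x (blt_t b))
  rw [← ev_xor, Nat.xor_assoc, Nat.xor_self, Nat.xor_zero] at k2
  exact B.nz g2 k2

theorem o8_s (hpm : PmOk pm) (e : o8 pm.zp F R s l K = true) :
    ∃ l' s', K l' s' = true ∧ Go pm ⟨n, F, R⟩ l l' := by
  obtain ⟨s', v, w, e, r⟩ := sr_s e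
  obtain ⟨g1, e⟩ := br_t e
  obtain ⟨g3, e⟩ := br_t e
  have key : ∀ (V Q : Type) [AddCommGroup V] [Module (ZMod 2) V] (S : QData V Q), Pl S →
      Ok pm ⟨n, F, R⟩ → ∀ h, Base pm S h → Md S h ⟨n, F, R⟩ →
      S.q (ev h 1) (ev h v) = S.q (ev h 8) (ev h w) := by
    intro V Q _ _ S hP O h B M
    have h6 : 64 ≤ 2 ^ n := h6n hpm O g1
    obtain ⟨R', _, _, ⟨P⟩⟩ := hP (ev h 1) (ev h 8)
    obtain ⟨k1, -, -⟩ := r.sound P M O (by show 1 < 2 ^ n; omega) (by show 8 < 2 ^ n; omega)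
      (Nat.two_pow_pos _) (Nat.two_pow_pos _)
    rw [vl_0] at k1
    have k2 : P.Y (ev h v) = P.Z (ev h w) := f2 k1
    rwa [P.yz] at k2
  rcases br_c e with ⟨b, e⟩ | ⟨-, e⟩
  · refine ⟨_, s', e, go0 ?_⟩
    intro V Q _ _ S hP O h B M
    have := key V Q S hP O h B M
    rw [beq_t b] at this
    exact B.hp g1 _ (blt_t g3) this
  · obtain ⟨b, e⟩ := br_t e
    refine ⟨_, s', e, go0 ?_⟩
    intro V Q _ _ S hP O h B M
    have := key V Q S hP O h B M
    rw [beq_t b] at this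
    exact B.hq g1 _ (blt_t g3) this

theorem o9_s (hpm : PmOk pm) (e : o9 pm.zp F R s l K = true) :
    ∃ l' s', K l' s' = true ∧ Go pm ⟨n, F, R⟩ l l' := by
  obtain ⟨s1, v, w, e, r⟩ := sr_s e
  obtain ⟨s2, v', w', e, r'⟩ := sr_s e
  obtain ⟨g1, e⟩ := br_t e
  obtain ⟨g2, e⟩ := br_t e
  obtain ⟨g3, e⟩ := br_t e
  refine ⟨_, s2, e, go0 ?_⟩
  intro V Q _ _ S hP O h B M
  have h6 : 64 ≤ 2 ^ n := h6n hpm O g1
  obtain ⟨R', _, _, ⟨P⟩⟩ := hP (ev h 1) (ev h 8)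
  obtain ⟨k1, -, -⟩ := r.sound P M O (by show 1 < 2 ^ n; omega) (by show 8 < 2 ^ n; omega)
    (Nat.two_pow_pos _) (Nat.two_pow_pos _)
  obtain ⟨l1, -, -⟩ := r'.sound P M O (by show 1 < 2 ^ n; omega) (by show 8 < 2 ^ n; omega)
    (Nat.two_pow_pos _) (Nat.two_pow_pos _)
  rw [vl_0] at k1 l1
  have k2 : P.Y (ev h v) = P.Z (ev h w) := f2 k1
  have l2 : P.Y (ev h v') = P.Z (ev h w') := f2 l1
  rw [P.yz, beq_t g2, S.symm (ev h 8)] at k2
  rw [P.yz, beq_t g3, S.symm (ev h 8)] at l2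
  exact B.nz g1 ⟨⟨_, k2⟩, ⟨_, l2⟩⟩

/-! ### branching -/

theorem rd_s {K : List ℕ → ℕ → Bool} : ∀ (k : ℕ) (L : List ℕ) (s : ℕ), rd K k L s = true →
    ∃ L' s', K L' s' = true
  | 0, L, s, e => ⟨L, s, e⟩
  | k + 1, L, s, e => rd_s k _ _ e

theorem rl_s {K : List ℕ → ℕ → Bool} (e : rl s K = true) : ∃ L' s', K L' s' = true :=
  rd_s _ _ _ e

theorem kids_mem {g x : ℕ} : ∀ (L : List ℕ) (l : List St),
    (∀ c ∈ l, c ∈ kids n F R g x L l) ∧
    ∀ d ∈ L, (⟨n, pf g (Nat.xor x d) F, R⟩ : St) ∈ kids n F R g x L l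
  | [], l => ⟨fun c hc => hc, fun d hd => by simp at hd⟩
  | a :: L, l => by
    obtain ⟨i1, i2⟩ := kids_mem L ((⟨n, pf g (Nat.xor x a) F, R⟩ : St) :: l)
    refine ⟨fun c hc => i1 c (List.mem_cons_of_mem _ hc), ?_⟩
    intro d hd
    rcases List.mem_cons.1 hd with rfl | hd
    · exact i1 _ List.mem_cons_self
    · exact i2 d hd

theorem row_t {t d : ℕ} : ∀ (L : List ℕ), (row d L).testBit t = true → ∃ x ∈ L, t = d ^^^ x
  | [], e => by
    have e' : (0 : ℕ).testBit t = true := e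
    simp at e'
  | a :: L, e => by
    have e' : (row d L ||| 1 <<< (d ^^^ a)).testBit t = true := e
    rw [Nat.testBit_lor, Bool.or_eq_true] at e'
    rcases e' with e' | e'
    · obtain ⟨x, hx, r⟩ := row_t L e'
      exact ⟨x, List.mem_cons_of_mem _ hx, r⟩
    · rw [Nat.one_shiftLeft, Nat.testBit_two_pow, decide_eq_true_eq] at e'
      exact ⟨a, List.mem_cons_self, e'.symm⟩

theorem msk_t {t : ℕ} {L : List ℕ} : ∀ (D : List ℕ), (msk L D).testBit t = true →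
    ∃ d ∈ D, ∃ x ∈ L, t = d ^^^ x
  | [], e => by
    have e' : (0 : ℕ).testBit t = true := e
    simp at e'
  | a :: D, e => by
    have e' : (msk L D ||| row a L).testBit t = true := e
    rw [Nat.testBit_lor, Bool.or_eq_true] at e'
    rcases e' with e' | e'
    · obtain ⟨d, hd, r⟩ := msk_t D e'
      exact ⟨d, List.mem_cons_of_mem _ hd, r⟩
    · exact ⟨a, List.mem_cons_self, row_t L e'⟩

theorem b255 : ∀ d < 8, (255 : ℕ).testBit d = true := by decide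

theorem span_C {V Q : Type} [AddCommGroup V] [Module (ZMod 2) V] {S : QData V Q} {h : ℕ → V}
    {g : ℕ} : ∀ (L : List ℕ), (∀ m ∈ L, C S (ev h g) (ev h m)) →
    ∀ m ∈ span L, C S (ev h g) (ev h m)
  | [], _, m, hm => by
    have hm' : m ∈ [0] := hm
    rw [List.mem_singleton.1 hm', ev_zero]
    exact C.zero _
  | a :: L, hL, m, hm => by
    have hm' : m ∈ span L ++ (span L).map (fun m => Nat.xor a m) := hm
    rw [List.mem_append, List.mem_map] at hm'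
    rcases hm' with hm' | ⟨m', hm', rfl⟩
    · exact span_C L (fun m hm => hL m (List.mem_cons_of_mem _ hm)) m hm'
    · have e : ev h (Nat.xor a m') = ev h a + ev h m' := ev_xor _ _ _
      rw [e]
      exact (hL a List.mem_cons_self).add
        (span_C L (fun m hm => hL m (List.mem_cons_of_mem _ hm)) m' hm')

theorem o3_s (hpm : PmOk pm) (e : o3 n F R s l K = true) :
    ∃ l' s', K l' s' = true ∧ Go pm ⟨n, F, R⟩ l l' := by
  obtain ⟨g0, e⟩ := br_t e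
  obtain ⟨g1, e⟩ := br_t e
  generalize Nat.land s 4095 = u2 at *
  generalize Nat.land (Nat.shiftRight s 12) 4095 = g at *
  obtain ⟨s1, x, v, w, e, r⟩ := sm_s e
  obtain ⟨g2, e⟩ := br_t e
  obtain ⟨L, s2, e⟩ := rl_s e
  obtain ⟨D, s3, e⟩ := rl_s e
  obtain ⟨b, e⟩ := br_t e
  obtain ⟨b1, b⟩ := br_t b
  obtain ⟨b2, b3⟩ := br_t b
  obtain ⟨k1, k2⟩ := kids_mem (n := n) (F := F) (R := R) (g := g) (x := Nat.xor x v) D l
  refine ⟨_, s3, e, k1, ?_⟩
  intro V Q _ _ S hP O h B M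
  have g0 := blt_t g0
  have g1 := blt_t g1
  have h8 : 8 ≤ 2 ^ n := h8n hpm O
  obtain ⟨R', _, _, ⟨P⟩⟩ := hP (ev h 1) (ev h u2)
  obtain ⟨t1, t2, t3, t4⟩ := r.sound P M O (by show 1 < 2 ^ n; omega) g0
  rw [beq_t g2] at t1
  obtain ⟨d, hd, hC⟩ := br_sound B P t1
  rw [List.all_eq_true] at b1 b2
  have b4 : (msk (span (List.map (fun i => Nat.shiftRight (fc F i) 12) L)) D).testBit d = true := by
    rw [beq_t b3]
    exact b255 d hd
  obtain ⟨d', hd', y, hy, e4⟩ := msk_t D b4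
  have hd8 : d' < 8 := blt_t (b2 d' hd')
  have hK : ∀ m ∈ List.map (fun i => Nat.shiftRight (fc F i) 12) L, C S (ev h g) (ev h m) := by
    intro m hm
    obtain ⟨i, hi, rfl⟩ := List.mem_map.1 hm
    obtain ⟨c1, -⟩ := br_t (b1 i hi)
    rw [lo_eq] at c1
    have hf : C S (ev h (dg F (2 * i))) (ev h (dg F (2 * i + 1))) := M.f i
    rw [beq_t c1, ← hi_eq] at hf
    exact hf
  have h2 := span_C _ hK _ hy
  have h3 := hC.add h2
  rw [← ev_xor] at h3
  have e3 : x ^^^ v ^^^ d ^^^ y = (x ^^^ v) ^^^ d' := by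
    rw [e4, Nat.xor_assoc, Nat.xor_assoc d' y y, Nat.xor_self, Nat.xor_zero]
  rw [e3] at h3
  have hlt : (x ^^^ v) ^^^ d' < 2 ^ n := xlt (xlt t2 t3) (by omega)
  exact ⟨_, k2 d' hd', ok_pf O g1 hlt, h, B, md_pf M (O.lt g1) (O.lt hlt) h3⟩

theorem fact_of {V Q : Type} [AddCommGroup V] [Module (ZMod 2) V] {S : QData V Q} {h : ℕ → V}
    (M : Md S h ⟨n, F, R⟩) (i : ℕ) :
    C S (ev h (Nat.land (fc F i) 4095)) (ev h (Nat.shiftRight (fc F i) 12)) := by
  rw [lo_eq, hi_eq]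
  exact M.f i

theorem o6_s (e : o6 pm.cb F s l K = true) :
    ∃ l' s', K l' s' = true ∧ Go pm ⟨n, F, R⟩ l l' := by
  obtain ⟨g1, e⟩ := br_t e
  obtain ⟨g2, e⟩ := br_t e
  obtain ⟨g3, e⟩ := br_t e
  refine ⟨_, _, e, go0 ?_⟩
  intro V Q _ _ S hP O h B M
  have hf := fact_of M (Nat.land s 4095)
  rw [beq_t g1] at hf
  exact B.core _ (ble_t g2) (blt_t g3) hf

theorem o7_s (e : o7 F s l K = true) :
    ∃ l' s', K l' s' = true ∧ Go pm ⟨n, F, R⟩ l l' := by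
  obtain ⟨g1, e⟩ := br_t e
  refine ⟨_, _, e, go0 ?_⟩
  intro V Q _ _ S hP O h B M
  have hf := fact_of M (Nat.land s 4095)
  rw [beq_t g1] at hf
  exact B.nab hf

theorem dg_xor (F G i : ℕ) : dg (F ^^^ G) i = dg F i ^^^ dg G i := by
  show (F ^^^ G) / 4096 ^ i % 4096 = (F / 4096 ^ i % 4096) ^^^ (G / 4096 ^ i % 4096)
  have e : (4096 : ℕ) ^ i = 2 ^ (12 * i) := by
    rw [show (4096 : ℕ) = 2 ^ 12 by norm_num, ← pow_mul]
  rw [e, ← Nat.shiftRight_eq_div_pow, ← Nat.shiftRight_eq_div_pow, ← Nat.shiftRight_eq_div_pow,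
    Nat.shiftRight_xor_distrib]
  exact Nat.xor_mod_two_pow (n := 12)

theorem dg_and (F G i : ℕ) : dg (F &&& G) i = dg F i &&& dg G i := by
  show (F &&& G) / 4096 ^ i % 4096 = (F / 4096 ^ i % 4096) &&& (G / 4096 ^ i % 4096)
  have e : (4096 : ℕ) ^ i = 2 ^ (12 * i) := by
    rw [show (4096 : ℕ) = 2 ^ 12 by norm_num, ← pow_mul]
  rw [e, ← Nat.shiftRight_eq_div_pow, ← Nat.shiftRight_eq_div_pow, ← Nat.shiftRight_eq_div_pow,
    Nat.shiftRight_and_distrib]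
  exact Nat.and_mod_two_pow (n := 12)

theorem ones_eq : ∀ k, 4096 ^ k - 1 = 4095 * ones k ∧ ones (k + 1) = 1 + 4096 * ones k
  | 0 => ⟨by decide, by decide⟩
  | k + 1 => by
    obtain ⟨h1, h2⟩ := ones_eq k
    have h0 : 1 ≤ 4096 ^ k := Nat.one_le_pow _ _ (by norm_num)
    have e1 : (4096 : ℕ) ^ (k + 1) - 1 = 4095 * ones (k + 1) := by
      rw [h2, pow_succ]
      omega
    refine ⟨e1, ?_⟩
    have e2 : (4096 : ℕ) ^ (k + 1 + 1) - 1 = 4095 * (1 + 4096 * ones (k + 1)) := by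
      rw [pow_succ]
      have h3 : 1 ≤ 4096 ^ (k + 1) := Nat.one_le_pow _ _ (by norm_num)
      omega
    show (4096 ^ (k + 1 + 1) - 1) / 4095 = _
    rw [e2, Nat.mul_div_cancel_left _ (by norm_num)]

theorem dg_ones : ∀ (k i : ℕ), dg (ones k) i ≤ 1
  | 0, i => by
    have e : ones 0 = 0 := by decide
    rw [e, dg_0]
    omega
  | k + 1, 0 => by
    rw [(ones_eq k).2, dg_cons0 (by norm_num)]
  | k + 1, i + 1 => by
    rw [(ones_eq k).2, dg_consS (by norm_num)]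
    exact dg_ones k i

theorem dg_mul {c : ℕ} (hc : c < 4096) : ∀ (i B : ℕ), (∀ j, dg B j ≤ 1) →
    dg (B * c) i = dg B i * c := by
  intro i
  induction i with
  | zero =>
    intro B hB
    have h := hB 0
    rw [dg_zero] at h ⊢
    rw [dg_zero]
    have h' : B % 4096 = 0 ∨ B % 4096 = 1 := by omega
    rw [Nat.mul_mod]
    rcases h' with h' | h'
    · rw [h', Nat.zero_mul, Nat.zero_mod, Nat.zero_mul]
    · rw [h', Nat.one_mul, Nat.mod_mod, Nat.one_mul, Nat.mod_eq_of_lt hc]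
  | succ i ih =>
    intro B hB
    have h := hB 0
    rw [dg_zero] at h
    have h1 : (B % 4096) * c < 4096 := by
      have h' : B % 4096 = 0 ∨ B % 4096 = 1 := by omega
      rcases h' with h' | h'
      · rw [h']; omega
      · rw [h']; omega
    have e : B * c = (B % 4096) * c + 4096 * (B / 4096 * c) := by
      conv_lhs => rw [← Nat.mod_add_div B 4096]
      ring
    rw [e, dg_consS h1, ih (B / 4096) (fun j => by rw [dg_div]; exact hB (j + 1)), dg_div]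

theorem dg_mp {t v d k F : ℕ} (hc : v ^^^ d < 4096) (i : ℕ) :
    dg (mp t v d k F) i = dg F i ∨ dg (mp t v d k F) i = dg F i ^^^ (v ^^^ d) := by
  have e : mp t v d k F = F ^^^ ((Nat.shiftRight F t &&& ones k) * (v ^^^ d)) := rfl
  have h1 : ∀ j, dg (Nat.shiftRight F t &&& ones k) j ≤ 1 := by
    intro j
    rw [dg_and]
    exact Nat.and_le_right.trans (dg_ones k j)
  rw [e, dg_xor, dg_mul hc _ _ h1]
  have h2 := h1 i
  have h3 : dg (Nat.shiftRight F t &&& ones k) i = 0 ∨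
      dg (Nat.shiftRight F t &&& ones k) i = 1 := by omega
  rcases h3 with h3 | h3
  · left
    rw [h3, Nat.zero_mul, Nat.xor_zero]
  · right
    rw [h3, Nat.one_mul]

theorem ev_mp {V Q : Type} [AddCommGroup V] [Module (ZMod 2) V] {h : ℕ → V}
    {t v d k F : ℕ} (hc : v ^^^ d < 4096) (e : ev h v = ev h d) (i : ℕ) :
    ev h (dg (mp t v d k F) i) = ev h (dg F i) := by
  rcases dg_mp (t := t) (k := k) (F := F) hc i with h1 | h1
  · rw [h1]
  · rw [h1, ev_xor, ev_xor, e, ZModModule.add_self, add_zero]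

theorem lt_mp {t v d k F n : ℕ} (hn : 2 ^ n ≤ 4096) (hv : v < 2 ^ n) (hd : d < 2 ^ n) (i : ℕ)
    (h : dg F i < 2 ^ n) : dg (mp t v d k F) i < 2 ^ n := by
  have hc : v ^^^ d < 2 ^ n := xlt hv hd
  rcases dg_mp (t := t) (k := k) (F := F) (hc.trans_le hn) i with h1 | h1
  · rw [h1]; exact h
  · rw [h1]; exact xlt h hc

theorem o5_s (hpm : PmOk pm) (e : o5 pm.cb n F R s l K = true) :
    ∃ l' s', K l' s' = true ∧ Go pm ⟨n, F, R⟩ l l' := by
  obtain ⟨g1, e⟩ := br_t e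
  obtain ⟨g2, e⟩ := br_t e
  refine ⟨_, _, e, ?_, ?_⟩
  · intro c hc
    unfold col
    simp only [List.mem_cons]
    simp [hc]
  intro V Q _ _ S hP O h B M
  have hf := fact_of M (Nat.land s 4095)
  rw [beq_t g1] at hf
  have hv : Nat.shiftRight (fc F (Nat.land s 4095)) 12 < 2 ^ n := by
    rw [hi_eq]
    exact O.f _
  generalize Nat.shiftRight (fc F (Nat.land s 4095)) 12 = v at *
  have h8 : 8 ≤ 2 ^ n := h8n hpm O
  have hn : 2 ^ n ≤ 4096 := pow_le O.n12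
  obtain ⟨d, hd, ed⟩ := B.D1 _ hf
  have hd' : d < 2 ^ n := by omega
  have hc : v ^^^ d < 4096 := (xlt hv hd').trans_le hn
  generalize Nat.land (Nat.shiftRight s 12) 4095 = t
  generalize Nat.land (Nat.shiftRight s 24) 4095 = k1
  generalize Nat.land (Nat.shiftRight s 36) 4095 = k2
  refine ⟨⟨n, mp t v d k1 F, mp t v d k2 R⟩, ?_,
    ⟨O.n12, O.nc, ?_, ?_⟩, h, B, ?_, ?_⟩
  · unfold col
    simp only [List.mem_cons]
    interval_cases d
    · exact Or.inl rfl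
    · exact Or.inr (Or.inl rfl)
    · exact Or.inr (Or.inr (Or.inl rfl))
    · exact Or.inr (Or.inr (Or.inr (Or.inl rfl)))
    · exact Or.inr (Or.inr (Or.inr (Or.inr (Or.inl rfl))))
    · exact Or.inr (Or.inr (Or.inr (Or.inr (Or.inr (Or.inl rfl)))))
    · exact Or.inr (Or.inr (Or.inr (Or.inr (Or.inr (Or.inr (Or.inl rfl))))))
    · exact Or.inr (Or.inr (Or.inr (Or.inr (Or.inr (Or.inr (Or.inr (Or.inl rfl)))))))
  · exact fun i => lt_mp hn hv hd' i (O.f i)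
  · exact fun i => lt_mp hn hv hd' i (O.r i)
  · intro i
    show C S (ev h (dg (mp _ v d _ F) _)) (ev h (dg (mp _ v d _ F) _))
    rw [ev_mp (Q := Q) hc ed, ev_mp (Q := Q) hc ed]
    exact M.f i
  · intro i
    show S.q (ev h (dg (mp _ v d _ R) _)) (ev h (dg (mp _ v d _ R) _)) =
      S.q (ev h (dg (mp _ v d _ R) _)) (ev h (dg (mp _ v d _ R) _))
    rw [ev_mp (Q := Q) hc ed, ev_mp (Q := Q) hc ed, ev_mp (Q := Q) hc ed, ev_mp (Q := Q) hc ed]
    exact M.r i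

theorem o4_s (hpm : PmOk pm) (e : o4 n F R s l K = true) :
    ∃ l' s', K l' s' = true ∧ Go pm ⟨n, F, R⟩ l l' := by
  obtain ⟨p, u2, g, s', x, v, w, e, g1, g2, g3, r⟩ := s3_s e
  obtain ⟨b1, e⟩ := br_t e
  obtain ⟨b2, e⟩ := br_t e
  refine ⟨_, s', e, go1 ?_⟩
  intro V Q _ _ S hP O h B M
  have hn := blt_t b2
  obtain ⟨R', _, _, ⟨P⟩⟩ := hP (ev h p) (ev h u2)
  obtain ⟨k1, k2, k3, k4⟩ := r.sound P M O g1 g2
  rw [beq_t b1, vl_v0, ← um_1, Plane.T.um_iff, uv_1] at k1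
  obtain ⟨κ, l1, l2, l3⟩ := link k1
  obtain ⟨c, hc, Oc, h', B', M'⟩ := R4.N8.link_sound hpm B M O hn g3 k2 k3 g1 l1 l2 l3
  rw [List.mem_singleton] at hc
  subst hc
  have hgp : g ^^^ p < 2 ^ n := xlt g3 g1
  have hlt : 2 ^ n < 2 ^ (n + 1) := Nat.pow_lt_pow_right (by norm_num) (by omega)
  have h12 : 2 ^ (n + 1) ≤ 4096 := pow_le (by omega)
  have up : ∀ {m : ℕ}, m < 2 ^ n → m < 2 ^ (n + 1) := fun hm => hm.trans hlt
  have lx : x ^^^ 2 ^ n < 2 ^ (n + 1) := xlt (up k2) hlt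
  have lv : v ^^^ 2 ^ n < 2 ^ (n + 1) := xlt (up k3) hlt
  have w1 : g ^^^ p < 4096 := (up hgp).trans_le h12
  have w2 : 2 ^ n < 4096 := hlt.trans_le h12
  have w3 : p < 4096 := (up g1).trans_le h12
  have w4 : v ^^^ 2 ^ n < 4096 := lv.trans_le h12
  have w5 : g < 4096 := (up g3).trans_le h12
  have w6 : x ^^^ 2 ^ n < 4096 := lx.trans_le h12
  have f0 : C S (ev h' (g ^^^ p)) (ev h' (2 ^ n)) := by
    have := M'.f 0
    simp only [R4.N8.cF_eq] at this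
    rw [dg_cons0 w1, show 2 * 0 + 1 = 0 + 1 from rfl, dg_consS w1, dg_cons0 w2] at this
    exact this
  have f1 : C S (ev h' p) (ev h' (v ^^^ 2 ^ n)) := by
    have := M'.f 1
    simp only [R4.N8.cF_eq] at this
    rw [show 2 * 1 = 0 + 1 + 1 from rfl, show 0 + 1 + 1 + 1 = 1 + 1 + 1 from rfl,
      dg_consS w1, dg_consS w2, dg_cons0 w3, dg_consS w1, dg_consS w2,
      show (1 : ℕ) = 0 + 1 from rfl, dg_consS w3, dg_cons0 w4] at this
    exact this
  have f2' : C S (ev h' g) (ev h' (x ^^^ 2 ^ n)) := by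
    have := M'.f 2
    simp only [R4.N8.cF_eq] at this
    rw [show 2 * 2 = 0 + 1 + 1 + 1 + 1 from rfl,
      dg_consS w1, dg_consS w2, dg_consS w3, dg_consS w4, dg_cons0 w5,
      show 0 + 1 + 1 + 1 + 1 + 1 = (0 + 1) + 1 + 1 + 1 + 1 from rfl,
      dg_consS w1, dg_consS w2, dg_consS w3, dg_consS w4, dg_consS w5, dg_cons0 w6] at this
    exact this
  have fF : FH S h' F := by
    intro i
    have := M'.f (i + 3)
    simp only [R4.N8.cF_eq] at this
    rw [show 2 * (i + 3) + 1 = (2 * i + 1) + 1 + 1 + 1 + 1 + 1 + 1 by ring,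
      show 2 * (i + 3) = (2 * i) + 1 + 1 + 1 + 1 + 1 + 1 by ring,
      dg_consS w1, dg_consS w2, dg_consS w3, dg_consS w4, dg_consS w5, dg_consS w6,
      dg_consS w1, dg_consS w2, dg_consS w3, dg_consS w4, dg_consS w5, dg_consS w6] at this
    exact this
  have hO : Ok pm ⟨n + 1, F, R⟩ := ⟨by show n + 1 ≤ 12; omega,
    by have := O.nc; show pm.cb ≤ n + 1; simp only at this; omega,
    fun i => up (O.f i), fun i => up (O.r i)⟩
  exact ⟨ok_pf (ok_pf (ok_pf hO (up g3) lx) (up g1) lv) (up hgp) hlt, h', B',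
    fh_pf (fh_pf (fh_pf fF w5 w6 f2') w3 w4 f1) w1 w2 f0, M'.r⟩

/-! ### running -/

theorem step_s (hpm : PmOk pm) {o : ℕ}
    (e : step pm.cb pm.fl pm.zp n F R o s l K = true) :
    ∃ l' s', K l' s' = true ∧ Go pm ⟨n, F, R⟩ l l' := by
  rcases br_c e with ⟨-, e⟩ | ⟨-, e⟩
  · exact o11_s e
  rcases br_c e with ⟨-, e⟩ | ⟨-, e⟩
  · exact o1_s e
  rcases br_c e with ⟨-, e⟩ | ⟨-, e⟩
  · exact o0_s e
  rcases br_c e with ⟨-, e⟩ | ⟨-, e⟩
  · exact o2_s e
  rcases br_c e with ⟨-, e⟩ | ⟨-, e⟩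
  · exact o10_s hpm e
  rcases br_c e with ⟨-, e⟩ | ⟨-, e⟩
  · exact o8_s hpm e
  rcases br_c e with ⟨-, e⟩ | ⟨-, e⟩
  · exact o9_s hpm e
  rcases br_c e with ⟨-, e⟩ | ⟨-, e⟩
  · exact o3_s hpm e
  rcases br_c e with ⟨-, e⟩ | ⟨-, e⟩
  · exact o6_s e
  rcases br_c e with ⟨-, e⟩ | ⟨-, e⟩
  · exact o7_s e
  rcases br_c e with ⟨-, e⟩ | ⟨-, e⟩
  · exact o5_s hpm e
  · obtain ⟨-, e⟩ := br_t e
    exact o4_s hpm e

/-- no state of the list has a model -/
def Dead (pm : Pm) (l : List St) : Prop :=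
  ∀ (V Q : Type) [AddCommGroup V] [Module (ZMod 2) V] (S : QData V Q), Pl S → ∀ st ∈ l,
    Ok pm (cv st) → ∀ h, Base pm S h → Md S h (cv st) → False

theorem dead_nil : Dead pm [] := by
  intro V Q _ _ S _ st hst
  simp at hst

theorem dead_append {l m : List St} (hl : Dead pm l) (hm : Dead pm m) : Dead pm (l ++ m) := by
  intro V Q _ _ S hP st hst
  rcases List.mem_append.1 hst with h | h
  · exact hl V Q S hP st h
  · exact hm V Q S hP st h

theorem dead_cons {a : St} {m : List St} (hl : Dead pm [a]) (hm : Dead pm m) :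
    Dead pm (a :: m) := dead_append hl hm

theorem dead_head {a : St} {m : List St} (h : Dead pm (a :: m)) : Dead pm [a] := by
  intro V Q _ _ S hP st hst
  exact h V Q S hP st (by rw [List.mem_singleton.1 hst]; exact List.mem_cons_self)

theorem dead_tail {a : St} {m : List St} (h : Dead pm (a :: m)) : Dead pm m := by
  intro V Q _ _ S hP st hst
  exact h V Q S hP st (List.mem_cons_of_mem _ hst)

theorem eqb_eq {a b : St} (h : eqb a b = true) : a = b := by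
  obtain ⟨n, F, R⟩ := a
  obtain ⟨n', F', R'⟩ := b
  have h' : br (Nat.beq n n') (br (Nat.beq F F') (Nat.beq R R') false) false = true := h
  obtain ⟨h1, h'⟩ := br_t h'
  obtain ⟨h2, h3⟩ := br_t h'
  have k1 : n = n' := beq_t h1
  have k2 : F = F' := beq_t h2
  have k3 : R = R' := beq_t h3
  rw [k1, k2, k3]

theorem dead_go {a : St} {l l' : List St} (g : Go pm ⟨a.n, a.F, a.R⟩ l l') (h : Dead pm l') :
    Dead pm (a :: l) := by
  intro V Q _ _ S hP st hst O hh B M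
  rcases List.mem_cons.1 hst with rfl | hst
  · obtain ⟨c, hc, Oc, h', B', M'⟩ := g.2 V Q S hP O hh B M
    exact h V Q S hP c hc Oc h' B' M'
  · exact h V Q S hP st (g.1 st hst) O hh B M

theorem run_s (hpm : PmOk pm) : ∀ (k : ℕ) (l : List St) (s : ℕ) (D : List St),
    run pm.cb pm.fl pm.zp k l s D = true → Dead pm D → Dead pm l
  | _, [], _, _, _, _ => dead_nil
  | 0, a :: l, s, D, h, _ => by
    have h' : false = true := h
    exact absurd h' (by simp)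
  | k + 1, a :: l, s, D, h, hD => by
    have h' : br (Nat.beq (Nat.land s 4095) 4095)
        (@List.rec St (fun _ => Bool) false
          (fun c C' _ => br (eqb a c)
            (run pm.cb pm.fl pm.zp k l (Nat.shiftRight s 12) C') false) D)
        (step pm.cb pm.fl pm.zp a.n a.F a.R (Nat.land s 4095) (Nat.shiftRight s 12) l
          (fun l' s' => run pm.cb pm.fl pm.zp k l' s' D)) = true := h
    rcases br_c h' with ⟨-, h'⟩ | ⟨-, h'⟩
    · cases D with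
      | nil => exact absurd h' (by simp)
      | cons c D =>
        have h' : br (eqb a c) (run pm.cb pm.fl pm.zp k l (Nat.shiftRight s 12) D) false = true :=
          h'
        obtain ⟨h1, h2⟩ := br_t h'
        rw [eqb_eq h1]
        exact dead_cons (dead_head hD) (run_s hpm k l _ D h2 (dead_tail hD))
    · obtain ⟨l', s', e, g⟩ := step_s hpm h'
      exact dead_go g (run_s hpm k l' s' D e hD)

theorem run_dead (hpm : PmOk pm) {k : ℕ} {l : List St} {s : ℕ} {D : List St}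
    (h : run pm.cb pm.fl pm.zp k l s D = true) (hD : Dead pm D) : Dead pm l :=
  run_s hpm k l s D h hD

/-- pack a list of facts -/
noncomputable def pF : List ℕ → ℕ
  | [] => 0
  | c :: F => pf (c % 4096) (c / 4096) (pF F)

/-- pack a state without relations -/
noncomputable def pk (st : R4.M8.St) : St := ⟨st.n, pF st.F, 0⟩

section
variable {V Q : Type} [AddCommGroup V] [Module (ZMod 2) V] {S : QData V Q} {h : ℕ → V}

theorem pF_lt {n : ℕ} (hn : n ≤ 12) : ∀ (F : List ℕ), (∀ c ∈ F, R4.M8.Lt n c) →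
    ∀ i, dg (pF F) i < 2 ^ n
  | [], _, i => by
    show dg 0 i < _
    rw [dg_0]
    exact Nat.two_pow_pos _
  | c :: F, hF, i => by
    have hc := hF c List.mem_cons_self
    have hp := pow_le hn
    have e : pF (c :: F) = cF (c % 4096) (c / 4096) (cF (c / 4096) (c % 4096) (pF F)) := pf_eq _ _ _
    rw [e]
    exact c2 (p := fun m => m < 2 ^ n) (lt_of_lt_of_le hc.1 hp) (lt_of_lt_of_le hc.2 hp) hc.1 hc.2
      (c2 (p := fun m => m < 2 ^ n) (lt_of_lt_of_le hc.2 hp) (lt_of_lt_of_le hc.1 hp) hc.2 hc.1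
      (pF_lt hn F (fun c h => hF c (List.mem_cons_of_mem _ h)))) i

theorem pF_FH {n : ℕ} (hn : n ≤ 12) : ∀ (F : List ℕ), (∀ c ∈ F, R4.M8.Lt n c) →
    (∀ c ∈ F, C S (ev h (c % 4096)) (ev h (c / 4096))) → FH S h (pF F)
  | [], _, _ => by
    intro i
    show C S (ev h (dg 0 _)) (ev h (dg 0 _))
    rw [dg_0, dg_0, ev_zero]
    exact C.zero _
  | c :: F, hF, hC => by
    have hc := hF c List.mem_cons_self
    have hp := pow_le hn
    exact fh_pf (pF_FH hn F (fun c h => hF c (List.mem_cons_of_mem _ h))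
      (fun c h => hC c (List.mem_cons_of_mem _ h))) (lt_of_lt_of_le hc.1 hp)
      (lt_of_lt_of_le hc.2 hp) (hC c List.mem_cons_self)

end

/-- from packed states to lists -/
theorem dead_of {st : R4.M8.St} (D : Dead pm [pk st]) : R4.M8.Dead pm [st] := by
  intro V Q _ _ S hP st' hst O h B M
  have e := List.mem_singleton.1 hst
  subst e
  refine D V Q S hP _ (List.mem_singleton.2 rfl) ⟨O.n12, O.nc, pF_lt O.n12 _ O.f, ?_⟩ h B
    ⟨pF_FH O.n12 _ O.f M.f, ?_⟩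
  · intro i
    show dg 0 i < 2 ^ _
    rw [dg_0]
    exact Nat.two_pow_pos _
  · intro i
    show S.q (ev h (dg 0 _)) (ev h (dg 0 _)) = S.q (ev h (dg 0 _)) (ev h (dg 0 _))
    rw [dg_0, dg_0, dg_0, dg_0]

open Pool.Agent.R4.M8 (pmI pmII stt)

/-- all certificates -/
theorem certs (i0 : Dead pmI [pk (stt 0 2 false)]) (ib : Dead pmI [pk (stt 4 2 false)])
    (iia0 : Dead pmII [pk (stt 0 2 true)]) (iiab : Dead pmII [pk (stt 4 2 true)])
    (iib0 : Dead pmII [pk (stt 0 4 true)]) (iiba : Dead pmII [pk (stt 2 4 true)]) :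
    R4.M8.Certs :=
  ⟨dead_of i0, dead_of ib, dead_of iia0, dead_of iiab, dead_of iib0, dead_of iiba⟩

end Pool.Agent.C8
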