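import Pool.Agent.C8.K
import Pool.Agent.R4.N8F

/-!
# Soundness of the checker of C8/K.lean (helper14)
-/

set_option autoImplicit false
set_option linter.unusedSectionVars false
set_option linter.unusedVariables false
set_option linter.unusedSimpArgs false

namespace Pool.Agent.C8

open Pool.Agent.Helper58.PLine (QData)
open Pool.Agent.ETCP
open Pool.Agent.R4 (f2 Plane uv)
open Pool.Agent.R4.M8 (Pm ev ev_zero ev_xor GY Base PmOk xlt contrib uv_1 uv_2 uv_3 uv_0 um_1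
  um_2 um_3 vl vl_xor vl_0 vl_v0 vl_0w Pl pow_le ev_upd ev_new br_sound)
open Pool.Agent.R4.N8 (dg dg_lt dg_cons0 dg_consS dg_div dg_zero dg_0 beq_t blt_t ble_t cF cR
  h8n h6n c2 FH)

/-! ### reading -/

theorem fc_eq (F i : ℕ) : fc F i = F / 2 ^ (24 * i) % 2 ^ 24 := by
  show Nat.land (Nat.shiftRight F (24 * i)) 16777215 = _
  have e1 : Nat.shiftRight F (24 * i) = F / 2 ^ (24 * i) := Nat.shiftRight_eq_div_pow _ _
  rw [e1]
  exact Nat.and_two_pow_sub_one_eq_mod _ 24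

theorem land_mod (x : ℕ) : Nat.land x 4095 = x % 4096 := Nat.and_two_pow_sub_one_eq_mod x 12

theorem shr_div (x : ℕ) : Nat.shiftRight x 12 = x / 4096 := Nat.shiftRight_eq_div_pow x 12

theorem lo_eq (F i : ℕ) : Nat.land (fc F i) 4095 = dg F (2 * i) := by
  rw [land_mod, fc_eq]
  show _ = F / 4096 ^ (2 * i) % 4096
  have e : (4096 : ℕ) ^ (2 * i) = 2 ^ (24 * i) := by
    rw [show (4096 : ℕ) = 2 ^ 12 by norm_num, ← pow_mul]
    congr 1
    ring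
  rw [e]
  generalize F / 2 ^ (24 * i) = x
  show x % 16777216 % 4096 = x % 4096
  omega

theorem hi_eq (F i : ℕ) : Nat.shiftRight (fc F i) 12 = dg F (2 * i + 1) := by
  rw [shr_div, fc_eq]
  show _ = F / 4096 ^ (2 * i + 1) % 4096
  have e : (4096 : ℕ) ^ (2 * i + 1) = 2 ^ (24 * i) * 4096 := by
    rw [pow_succ, show (4096 : ℕ) ^ (2 * i) = 2 ^ (24 * i) by
      rw [show (4096 : ℕ) = 2 ^ 12 by norm_num, ← pow_mul]
      congr 1
      ring]
  rw [e, ← Nat.div_div_eq_div_mul]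
  generalize F / 2 ^ (24 * i) = x
  show x % 16777216 / 4096 = x / 4096 % 4096
  omega

theorem dR_eq (R i : ℕ) : dR R i = dg R i := by
  show Nat.land (Nat.shiftRight R (12 * i)) 4095 = R / 4096 ^ i % 4096
  have e1 : Nat.shiftRight R (12 * i) = R / 2 ^ (12 * i) := Nat.shiftRight_eq_div_pow _ _
  rw [land_mod, e1, show (4096 : ℕ) ^ i = 2 ^ (12 * i) by
    rw [show (4096 : ℕ) = 2 ^ 12 by norm_num, ← pow_mul]]

theorem pf_eq (u x F : ℕ) : pf u x F = cF u x (cF x u F) := by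
  show 281474976710656 * F + (68719476737 * u + 16781312 * x) =
    u + 4096 * (x + 4096 * (x + 4096 * (u + 4096 * F)))
  ring

theorem pr_eq (a b c d R : ℕ) : pr a b c d R = cR a b c d R := rfl

/-! ### if then else -/

theorem br_t {b x : Bool} (h : br b x false = true) : b = true ∧ x = true := by
  cases b
  · exact absurd h (by simp [br])
  · exact ⟨rfl, h⟩

theorem br_c {b x y : Bool} (h : br b x y = true) :
    (b = true ∧ x = true) ∨ (b = false ∧ y = true) := by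
  cases b
  · exact Or.inr ⟨rfl, h⟩
  · exact Or.inl ⟨rfl, h⟩

/-! ### chains -/

/-- the sum along a chain -/
inductive RC (F : ℕ) : ℕ → ℕ → ℕ → ℕ → Prop
  | nil (u x : ℕ) : RC F u x u x
  | one {u x u' x' : ℕ} (i : ℕ) (e : dg F (2 * i) = u)
      (h : RC F u (x ^^^ dg F (2 * i + 1)) u' x') : RC F u x u' x'
  | two {u x u' x' : ℕ} (i : ℕ) (e : dg F (2 * i + 1) = x)
      (h : RC F (u ^^^ dg F (2 * i)) x u' x') : RC F u x u' x'

theorem ch_s {F : ℕ} {K : ℕ → ℕ → ℕ → Bool} : ∀ (k s u x : ℕ), ch F K k s u x = true →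
    ∃ s' u' x', K s' u' x' = true ∧ RC F u x u' x'
  | 0, s, u, x, h => ⟨s, u, x, h, RC.nil u x⟩
  | k + 1, s, u, x, h => by
    have h' : br (Nat.beq (Nat.land (fc F (Nat.land s 4095)) 4095) u)
        (ch F K k (Nat.shiftRight s 12) u
          (Nat.xor x (Nat.shiftRight (fc F (Nat.land s 4095)) 12)))
        (br (Nat.beq (Nat.shiftRight (fc F (Nat.land s 4095)) 12) x)
          (ch F K k (Nat.shiftRight s 12) (Nat.xor u (Nat.land (fc F (Nat.land s 4095)) 4095)) x)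
          false) = true := h
    rw [lo_eq, hi_eq] at h'
    rcases br_c h' with ⟨e, h1⟩ | ⟨-, h1⟩
    · obtain ⟨s', u', x', hK, hr⟩ := ch_s k _ _ _ h1
      exact ⟨s', u', x', hK, RC.one _ (beq_t e) hr⟩
    · obtain ⟨e, h1⟩ := br_t h1
      obtain ⟨s', u', x', hK, hr⟩ := ch_s k _ _ _ h1
      exact ⟨s', u', x', hK, RC.two _ (beq_t e) hr⟩

/-! ### sums -/

/-- sum of facts -/
inductive RL (F a1 a2 a3 g : ℕ) : ℕ → ℕ → ℕ → ℕ → ℕ → ℕ → Prop
  | nil (h v w : ℕ) : RL F a1 a2 a3 g h v w h v w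
  | c0 {h v w h' v' w' : ℕ} (i : ℕ) (e : dg F (2 * i) = g)
      (r : RL F a1 a2 a3 g (h ^^^ dg F (2 * i + 1)) v w h' v' w') :
      RL F a1 a2 a3 g h v w h' v' w'
  | c1 {h v w h' v' w' : ℕ} (i : ℕ) (e : dg F (2 * i) = a1)
      (r : RL F a1 a2 a3 g (h ^^^ dg F (2 * i + 1)) (v ^^^ dg F (2 * i + 1)) w h' v' w') :
      RL F a1 a2 a3 g h v w h' v' w'
  | c2 {h v w h' v' w' : ℕ} (i : ℕ) (e : dg F (2 * i) = a2)
      (r : RL F a1 a2 a3 g (h ^^^ dg F (2 * i + 1)) v (w ^^^ dg F (2 * i + 1)) h' v' w') :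
      RL F a1 a2 a3 g h v w h' v' w'
  | c3 {h v w h' v' w' : ℕ} (i : ℕ) (e : dg F (2 * i) = a3)
      (r : RL F a1 a2 a3 g (h ^^^ dg F (2 * i + 1)) (v ^^^ dg F (2 * i + 1))
        (w ^^^ dg F (2 * i + 1)) h' v' w') :
      RL F a1 a2 a3 g h v w h' v' w'

theorem sL_s {F a1 a2 a3 g : ℕ} {K : ℕ → ℕ → ℕ → ℕ → Bool} : ∀ (k s h v w : ℕ),
    sL F a1 a2 a3 g K k s h v w = true →
    ∃ s' h' v' w', K s' h' v' w' = true ∧ RL F a1 a2 a3 g h v w h' v' w'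
  | 0, s, h, v, w, e => ⟨s, h, v, w, e, RL.nil h v w⟩
  | k + 1, s, h, v, w, e => by
    have e' : br (Nat.beq (Nat.land (fc F (Nat.land s 4095)) 4095) g)
        (sL F a1 a2 a3 g K k (Nat.shiftRight s 12)
          (Nat.xor h (Nat.shiftRight (fc F (Nat.land s 4095)) 12)) v w)
        (br (Nat.beq (Nat.land (fc F (Nat.land s 4095)) 4095) a1)
          (sL F a1 a2 a3 g K k (Nat.shiftRight s 12)
            (Nat.xor h (Nat.shiftRight (fc F (Nat.land s 4095)) 12))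
            (Nat.xor v (Nat.shiftRight (fc F (Nat.land s 4095)) 12)) w)
          (br (Nat.beq (Nat.land (fc F (Nat.land s 4095)) 4095) a2)
            (sL F a1 a2 a3 g K k (Nat.shiftRight s 12)
              (Nat.xor h (Nat.shiftRight (fc F (Nat.land s 4095)) 12)) v
              (Nat.xor w (Nat.shiftRight (fc F (Nat.land s 4095)) 12)))
            (br (Nat.beq (Nat.land (fc F (Nat.land s 4095)) 4095) a3)
              (sL F a1 a2 a3 g K k (Nat.shiftRight s 12)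
                (Nat.xor h (Nat.shiftRight (fc F (Nat.land s 4095)) 12))
                (Nat.xor v (Nat.shiftRight (fc F (Nat.land s 4095)) 12))
                (Nat.xor w (Nat.shiftRight (fc F (Nat.land s 4095)) 12)))
              false))) = true := e
    rw [lo_eq, hi_eq] at e'
    rcases br_c e' with ⟨b, e1⟩ | ⟨-, e1⟩
    · obtain ⟨s', h', v', w', hK, hr⟩ := sL_s k _ _ _ _ e1
      exact ⟨s', h', v', w', hK, RL.c0 _ (beq_t b) hr⟩
    rcases br_c e1 with ⟨b, e1⟩ | ⟨-, e1⟩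
    · obtain ⟨s', h', v', w', hK, hr⟩ := sL_s k _ _ _ _ e1
      exact ⟨s', h', v', w', hK, RL.c1 _ (beq_t b) hr⟩
    rcases br_c e1 with ⟨b, e1⟩ | ⟨-, e1⟩
    · obtain ⟨s', h', v', w', hK, hr⟩ := sL_s k _ _ _ _ e1
      exact ⟨s', h', v', w', hK, RL.c2 _ (beq_t b) hr⟩
    · obtain ⟨b, e1⟩ := br_t e1
      obtain ⟨s', h', v', w', hK, hr⟩ := sL_s k _ _ _ _ e1
      exact ⟨s', h', v', w', hK, RL.c3 _ (beq_t b) hr⟩

/-- sum of facts as relations -/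
inductive RR (F a1 a2 a3 : ℕ) : ℕ → ℕ → ℕ → ℕ → Prop
  | nil (v w : ℕ) : RR F a1 a2 a3 v w v w
  | c1 {v w v' w' : ℕ} (i : ℕ) (e : dg F (2 * i) = a1)
      (r : RR F a1 a2 a3 (v ^^^ dg F (2 * i + 1)) w v' w') : RR F a1 a2 a3 v w v' w'
  | c2 {v w v' w' : ℕ} (i : ℕ) (e : dg F (2 * i) = a2)
      (r : RR F a1 a2 a3 v (w ^^^ dg F (2 * i + 1)) v' w') : RR F a1 a2 a3 v w v' w'
  | c3 {v w v' w' : ℕ} (i : ℕ) (e : dg F (2 * i) = a3)
      (r : RR F a1 a2 a3 (v ^^^ dg F (2 * i + 1)) (w ^^^ dg F (2 * i + 1)) v' w') :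
      RR F a1 a2 a3 v w v' w'

theorem sR_s {F a1 a2 a3 : ℕ} {K : ℕ → ℕ → ℕ → Bool} : ∀ (k s v w : ℕ),
    sR F a1 a2 a3 K k s v w = true →
    ∃ s' v' w', K s' v' w' = true ∧ RR F a1 a2 a3 v w v' w'
  | 0, s, v, w, e => ⟨s, v, w, e, RR.nil v w⟩
  | k + 1, s, v, w, e => by
    have e' : br (Nat.beq (Nat.land (fc F (Nat.land s 4095)) 4095) a1)
          (sR F a1 a2 a3 K k (Nat.shiftRight s 12)
            (Nat.xor v (Nat.shiftRight (fc F (Nat.land s 4095)) 12)) w)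
          (br (Nat.beq (Nat.land (fc F (Nat.land s 4095)) 4095) a2)
            (sR F a1 a2 a3 K k (Nat.shiftRight s 12) v
              (Nat.xor w (Nat.shiftRight (fc F (Nat.land s 4095)) 12)))
            (br (Nat.beq (Nat.land (fc F (Nat.land s 4095)) 4095) a3)
              (sR F a1 a2 a3 K k (Nat.shiftRight s 12)
                (Nat.xor v (Nat.shiftRight (fc F (Nat.land s 4095)) 12))
                (Nat.xor w (Nat.shiftRight (fc F (Nat.land s 4095)) 12)))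
              false)) = true := e
    rw [lo_eq, hi_eq] at e'
    rcases br_c e' with ⟨b, e1⟩ | ⟨-, e1⟩
    · obtain ⟨s', v', w', hK, hr⟩ := sR_s k _ _ _ e1
      exact ⟨s', v', w', hK, RR.c1 _ (beq_t b) hr⟩
    rcases br_c e1 with ⟨b, e1⟩ | ⟨-, e1⟩
    · obtain ⟨s', v', w', hK, hr⟩ := sR_s k _ _ _ e1
      exact ⟨s', v', w', hK, RR.c2 _ (beq_t b) hr⟩
    · obtain ⟨b, e1⟩ := br_t e1
      obtain ⟨s', v', w', hK, hr⟩ := sR_s k _ _ _ e1
      exact ⟨s', v', w', hK, RR.c3 _ (beq_t b) hr⟩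

/-- sum of relations -/
inductive RX (R u1 u2 : ℕ) : ℕ → ℕ → ℕ → ℕ → Prop
  | nil (v w : ℕ) : RX R u1 u2 v w v w
  | s0 {v w v' w' : ℕ} (r : RX R u1 u2 (v ^^^ u2) (w ^^^ u1) v' w') : RX R u1 u2 v w v' w'
  | s1 {v w v' w' : ℕ} (i : ℕ) (e1 : dg R (4 * i) = u1) (e2 : dg R (4 * i + 1) = u2)
      (r : RX R u1 u2 (v ^^^ dg R (4 * i + 2)) (w ^^^ dg R (4 * i + 3)) v' w') :
      RX R u1 u2 v w v' w'

theorem sX_s {R u1 u2 : ℕ} {K : ℕ → ℕ → ℕ → Bool} : ∀ (k s v w : ℕ),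
    sX R u1 u2 K k s v w = true →
    ∃ s' v' w', K s' v' w' = true ∧ RX R u1 u2 v w v' w'
  | 0, s, v, w, e => ⟨s, v, w, e, RX.nil v w⟩
  | k + 1, s, v, w, e => by
    have e' : br (Nat.beq (Nat.land s 4095) 4095)
        (sX R u1 u2 K k (Nat.shiftRight s 12) (Nat.xor v u2) (Nat.xor w u1))
        (br (Nat.beq (dR R (4 * (Nat.land s 4095))) u1)
          (br (Nat.beq (dR R (4 * (Nat.land s 4095) + 1)) u2)
            (sX R u1 u2 K k (Nat.shiftRight s 12)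
              (Nat.xor v (dR R (4 * (Nat.land s 4095) + 2)))
              (Nat.xor w (dR R (4 * (Nat.land s 4095) + 3)))) false) false) = true := e
    rw [dR_eq, dR_eq, dR_eq, dR_eq] at e'
    rcases br_c e' with ⟨b, e1⟩ | ⟨-, e1⟩
    · obtain ⟨s', v', w', hK, hr⟩ := sX_s k _ _ _ e1
      exact ⟨s', v', w', hK, RX.s0 hr⟩
    · obtain ⟨b, e1⟩ := br_t e1
      obtain ⟨b', e1⟩ := br_t e1
      obtain ⟨s', v', w', hK, hr⟩ := sX_s k _ _ _ e1
      exact ⟨s', v', w', hK, RX.s1 _ (beq_t b) (beq_t b') hr⟩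

/-- both -/
def RS (F R u1 u2 v w v' w' : ℕ) : Prop :=
  ∃ v1 w1, RR F u1 u2 (u1 ^^^ u2) v w v1 w1 ∧ RX R u1 u2 v1 w1 v' w'

theorem sr_s {F R u1 u2 v w s : ℕ} {K : ℕ → ℕ → ℕ → Bool} (e : sr F R u1 u2 v w s K = true) :
    ∃ s' v' w', K s' v' w' = true ∧ RS F R u1 u2 v w v' w' := by
  obtain ⟨s1, v1, w1, e1, r1⟩ := sR_s _ _ _ _ e
  obtain ⟨s2, v2, w2, e2, r2⟩ := sX_s _ _ _ _ e1
  exact ⟨s2, v2, w2, e2, v1, w1, r1, r2⟩

/-- all three -/
def RN (F R u1 u2 g h v w h' v' w' : ℕ) : Prop :=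
  ∃ v1 w1, RL F (u1 ^^^ g) (u2 ^^^ g) (u1 ^^^ u2 ^^^ g) g h v w h' v1 w1 ∧
    RS F R u1 u2 v1 w1 v' w'

theorem sn_s {F R u1 u2 g s h v w : ℕ} {K : ℕ → ℕ → ℕ → ℕ → Bool}
    (e : sn F R u1 u2 g s h v w K = true) :
    ∃ s' h' v' w', K s' h' v' w' = true ∧ RN F R u1 u2 g h v w h' v' w' := by
  obtain ⟨s1, h1, v1, w1, e1, r1⟩ := sL_s _ _ _ _ _ e
  obtain ⟨s2, v2, w2, e2, r2⟩ := sr_s e1
  exact ⟨s2, h1, v2, w2, e2, v1, w1, r1, r2⟩

/-- start of a sum -/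
def RM (n F R u1 u2 g h' v' w' : ℕ) : Prop :=
  RN F R u1 u2 g 0 0 0 h' v' w' ∨ ∃ x < 2 ^ n, (g = u2 ∧ RN F R u1 u2 g x 0 x h' v' w') ∨
    (g = u1 ∧ RN F R u1 u2 g x x 0 h' v' w') ∨
    (g = u1 ^^^ u2 ∧ RN F R u1 u2 g x x x h' v' w')

theorem sm_s {n F R u1 u2 g s : ℕ} {K : ℕ → ℕ → ℕ → ℕ → Bool}
    (e : sm n F R u1 u2 g s K = true) :
    ∃ s' h' v' w', K s' h' v' w' = true ∧ RM n F R u1 u2 g h' v' w' := by
  rcases br_c e with ⟨-, e⟩ | ⟨-, e⟩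
  · obtain ⟨s', h', v', w', hK, hr⟩ := sn_s e
    exact ⟨s', h', v', w', hK, Or.inl hr⟩
  obtain ⟨b, e⟩ := br_t e
  have hx := blt_t b
  rcases br_c e with ⟨c, e⟩ | ⟨-, e⟩
  · obtain ⟨s', h', v', w', hK, hr⟩ := sn_s e
    exact ⟨s', h', v', w', hK, Or.inr ⟨_, hx, Or.inl ⟨beq_t c, hr⟩⟩⟩
  rcases br_c e with ⟨c, e⟩ | ⟨-, e⟩
  · obtain ⟨s', h', v', w', hK, hr⟩ := sn_s e
    exact ⟨s', h', v', w', hK, Or.inr ⟨_, hx, Or.inr (Or.inl ⟨beq_t c, hr⟩)⟩⟩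
  · obtain ⟨c, e⟩ := br_t e
    obtain ⟨s', h', v', w', hK, hr⟩ := sn_s e
    exact ⟨s', h', v', w', hK, Or.inr ⟨_, hx, Or.inr (Or.inr ⟨beq_t c, hr⟩)⟩⟩

/-! ### models -/

section
variable {V Q : Type} [AddCommGroup V] [Module (ZMod 2) V] {S : QData V Q}
  {R' : Type} [AddCommGroup R'] [Module (ZMod 2) R'] {h : ℕ → V} {st : R4.N8.St} {pm : Pm}

theorem RC.sound (M : R4.N8.Md S h st) (O : R4.N8.Ok pm st) {u x u' x' : ℕ}
    (r : RC st.F u x u' x') : C S (ev h u) (ev h x) → u < 2 ^ st.n → x < 2 ^ st.n →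
    C S (ev h u') (ev h x') ∧ u' < 2 ^ st.n ∧ x' < 2 ^ st.n := by
  induction r with
  | nil u x => exact fun h1 h2 h3 => ⟨h1, h2, h3⟩
  | one i e r ih =>
    intro h1 h2 h3
    have hf := M.f i
    rw [e] at hf
    exact ih (by rw [ev_xor]; exact h1.add hf) h2 (xlt h3 (O.f _))
  | two i e r ih =>
    intro h1 h2 h3
    have hf := M.f i
    rw [e] at hf
    exact ih (by rw [ev_xor]; exact h1.add' hf) (xlt h2 (O.f _)) h3

section plane
variable {u1 u2 : ℕ} (P : Plane S (ev h u1) (ev h u2) R')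

theorem xx (a b c : ℕ) (e : a = b ^^^ c) : a ^^^ c = b := by
  rw [e, Nat.xor_assoc, Nat.xor_self, Nat.xor_zero]

theorem RL.sound (M : R4.N8.Md S h st) (O : R4.N8.Ok pm st) {g x v w x' v' w' : ℕ}
    (r : RL st.F (u1 ^^^ g) (u2 ^^^ g) (u1 ^^^ u2 ^^^ g) g x v w x' v' w') :
    P.T (ev h g) (ev h x) (vl P h v w) → x < 2 ^ st.n → v < 2 ^ st.n → w < 2 ^ st.n →
      P.T (ev h g) (ev h x') (vl P h v' w') ∧ x' < 2 ^ st.n ∧ v' < 2 ^ st.n ∧ w' < 2 ^ st.n := by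
  induction r with
  | nil x v w => exact fun hT h1 h2 h3 => ⟨hT, h1, h2, h3⟩
  | c0 i e r ih =>
    intro hT h1 h2 h3
    have hf := M.f i
    have hx := O.f (2 * i + 1)
    refine ih ?_ (xlt h1 hx) h2 h3
    have := hT.add (contrib (P := P) (i := 0) (by rw [e, Nat.xor_self, ev_zero, uv_0]) hf)
    rw [Plane.um_zero, add_zero, ← ev_xor] at this
    exact this
  | c1 i e r ih =>
    intro hT h1 h2 h3
    have hf := M.f i
    have hx := O.f (2 * i + 1)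
    refine ih ?_ (xlt h1 hx) (xlt h2 hx) h3
    have := hT.add (contrib (P := P) (i := 1) (by rw [xx _ _ _ e, uv_1]) hf)
    rw [um_1, ← ev_xor, ← vl_v0, ← vl_xor, Nat.xor_zero] at this
    exact this
  | c2 i e r ih =>
    intro hT h1 h2 h3
    have hf := M.f i
    have hx := O.f (2 * i + 1)
    refine ih ?_ (xlt h1 hx) h2 (xlt h3 hx)
    have := hT.add (contrib (P := P) (i := 2) (by rw [xx _ _ _ e, uv_2]) hf)
    rw [um_2, ← ev_xor, ← vl_0w, ← vl_xor, Nat.xor_zero] at this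
    exact this
  | c3 i e r ih =>
    intro hT h1 h2 h3
    have hf := M.f i
    have hx := O.f (2 * i + 1)
    refine ih ?_ (xlt h1 hx) (xlt h2 hx) (xlt h3 hx)
    have := hT.add (contrib (P := P) (i := 3) (by rw [xx _ _ _ e, ev_xor, uv_3]) hf)
    have e3 : P.um 3 (ev h (dg st.F (2 * i + 1))) =
      vl P h (dg st.F (2 * i + 1)) (dg st.F (2 * i + 1)) := um_3 _
    rw [e3, ← ev_xor, ← vl_xor] at this
    exact this

theorem RR.sound (M : R4.N8.Md S h st) (O : R4.N8.Ok pm st) {v w v' w' : ℕ}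
    (r : RR st.F u1 u2 (u1 ^^^ u2) v w v' w') : v < 2 ^ st.n → w < 2 ^ st.n →
      vl P h v' w' = vl P h v w ∧ v' < 2 ^ st.n ∧ w' < 2 ^ st.n := by
  induction r with
  | nil v w => exact fun h1 h2 => ⟨rfl, h1, h2⟩
  | @c1 v w v' w' i e r ih =>
    intro h2 h3
    have hf := M.f i
    have hx := O.f (2 * i + 1)
    obtain ⟨a1, a2⟩ := ih (xlt h2 hx) h3
    refine ⟨?_, a2⟩
    rw [e] at hf
    generalize dg st.F (2 * i + 1) = t at *
    have e1 : vl P h (v ^^^ t) w = vl P h (v ^^^ t) (w ^^^ 0) := by rw [Nat.xor_zero]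
    rw [a1, e1, vl_xor, vl_v0, P.Y0.2 hf, add_zero]
  | @c2 v w v' w' i e r ih =>
    intro h2 h3
    have hf := M.f i
    have hx := O.f (2 * i + 1)
    obtain ⟨a1, a2⟩ := ih h2 (xlt h3 hx)
    refine ⟨?_, a2⟩
    rw [e] at hf
    generalize dg st.F (2 * i + 1) = t at *
    have e1 : vl P h v (w ^^^ t) = vl P h (v ^^^ 0) (w ^^^ t) := by rw [Nat.xor_zero]
    rw [a1, e1, vl_xor, vl_0w, P.Z0.2 hf, add_zero]
  | @c3 v w v' w' i e r ih =>
    intro h2 h3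
    have hf := M.f i
    have hx := O.f (2 * i + 1)
    obtain ⟨a1, a2⟩ := ih (xlt h2 hx) (xlt h3 hx)
    refine ⟨?_, a2⟩
    rw [e, ev_xor] at hf
    generalize dg st.F (2 * i + 1) = t at *
    have e1 : vl P h t t = 0 := P.S0.2 hf
    rw [a1, vl_xor, e1, add_zero]

theorem RX.sound (M : R4.N8.Md S h st) (O : R4.N8.Ok pm st) (hu1 : u1 < 2 ^ st.n)
    (hu2 : u2 < 2 ^ st.n) {v w v' w' : ℕ}
    (r : RX st.R u1 u2 v w v' w') : v < 2 ^ st.n → w < 2 ^ st.n →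
      vl P h v' w' = vl P h v w ∧ v' < 2 ^ st.n ∧ w' < 2 ^ st.n := by
  induction r with
  | nil v w => exact fun h1 h2 => ⟨rfl, h1, h2⟩
  | s0 r ih =>
    intro h2 h3
    obtain ⟨a1, a2⟩ := ih (xlt h2 hu2) (xlt h3 hu1)
    refine ⟨?_, a2⟩
    have e1 : vl P h u2 u1 = 0 := by
      unfold vl
      rw [(P.yz _ _).2 (S.symm _ _), ZModModule.add_self]
    rw [a1, vl_xor, e1, add_zero]
  | s1 i l1 l2 r ih =>
    intro h2 h3
    obtain ⟨a1, a2⟩ := ih (xlt h2 (O.r _)) (xlt h3 (O.r _))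
    refine ⟨?_, a2⟩
    have hr := M.r i
    rw [l1, l2, ← P.yz] at hr
    have e1 : vl P h (dg st.R (4 * i + 2)) (dg st.R (4 * i + 3)) = 0 := by
      unfold vl
      rw [hr, ZModModule.add_self]
    rw [a1, vl_xor, e1, add_zero]

theorem RS.sound (M : R4.N8.Md S h st) (O : R4.N8.Ok pm st) (hu1 : u1 < 2 ^ st.n)
    (hu2 : u2 < 2 ^ st.n) {v w v' w' : ℕ}
    (r : RS st.F st.R u1 u2 v w v' w') (hv : v < 2 ^ st.n) (hw : w < 2 ^ st.n) :
      vl P h v' w' = vl P h v w ∧ v' < 2 ^ st.n ∧ w' < 2 ^ st.n := by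
  obtain ⟨v1, w1, r1, r2⟩ := r
  obtain ⟨l1, l2, l3⟩ := r1.sound P M O hv hw
  obtain ⟨m1, m2, m3⟩ := r2.sound P M O hu1 hu2 l2 l3
  exact ⟨m1.trans l1, m2, m3⟩

theorem RN.sound (M : R4.N8.Md S h st) (O : R4.N8.Ok pm st) (hu1 : u1 < 2 ^ st.n)
    (hu2 : u2 < 2 ^ st.n) {g x v w x' v' w' : ℕ}
    (r : RN st.F st.R u1 u2 g x v w x' v' w') (hT : P.T (ev h g) (ev h x) (vl P h v w))
    (h1 : x < 2 ^ st.n) (h2 : v < 2 ^ st.n) (h3 : w < 2 ^ st.n) :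
    P.T (ev h g) (ev h x') (vl P h v' w') ∧ x' < 2 ^ st.n ∧ v' < 2 ^ st.n ∧ w' < 2 ^ st.n := by
  obtain ⟨v1, w1, r1, r2⟩ := r
  obtain ⟨k1, k2, k3, k4⟩ := r1.sound P M O hT h1 h2 h3
  obtain ⟨l1, l2, l3⟩ := r2.sound P M O hu1 hu2 k3 k4
  refine ⟨?_, k2, l2, l3⟩
  rw [l1]
  exact k1

theorem RM.sound (M : R4.N8.Md S h st) (O : R4.N8.Ok pm st) (hu1 : u1 < 2 ^ st.n)
    (hu2 : u2 < 2 ^ st.n) {g x' v' w' : ℕ}
    (r : RM st.n st.F st.R u1 u2 g x' v' w') :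
    P.T (ev h g) (ev h x') (vl P h v' w') ∧ x' < 2 ^ st.n ∧ v' < 2 ^ st.n ∧ w' < 2 ^ st.n := by
  have h0 : (0 : ℕ) < 2 ^ st.n := Nat.two_pow_pos _
  have hz : ∀ x, C S (ev h 0) (ev h x) := fun x => by rw [ev_zero]; exact C.zero' _
  rcases r with r | ⟨x, hx, ⟨e, r⟩ | ⟨e, r⟩ | ⟨e, r⟩⟩
  · refine r.sound P M O hu1 hu2 ?_ h0 h0 h0
    rw [ev_zero, vl_0]
    exact Plane.T.zero _
  · refine r.sound P M O hu1 hu2 ?_ hx h0 hx
    have h1 := contrib (P := P) (u := 0) (g := g) (x := x) (i := 2)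
      (by rw [Nat.zero_xor, e, uv_2]) (hz x)
    rw [um_2] at h1
    rw [vl_0w]
    exact h1
  · refine r.sound P M O hu1 hu2 ?_ hx hx h0
    have h1 := contrib (P := P) (u := 0) (g := g) (x := x) (i := 1)
      (by rw [Nat.zero_xor, e, uv_1]) (hz x)
    rw [um_1] at h1
    rw [vl_v0]
    exact h1
  · refine r.sound P M O hu1 hu2 ?_ hx hx hx
    have h1 := contrib (P := P) (u := 0) (g := g) (x := x) (i := 3)
      (by rw [Nat.zero_xor, e, ev_xor, uv_3]) (hz x)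
    rw [um_3] at h1
    exact h1

end plane

end

end Pool.Agent.C8
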